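import Pool.Agent.TH639.SC.Tw
import Mathlib.RingTheory.PowerSeries.Trunc
import Mathlib.RingTheory.Localization.FractionRing

/-!
Multiplicities, and the sum of the orders of vanishing of the twists.
-/

set_option autoImplicit false
set_option maxHeartbeats 1000000

open PowerSeries

namespace Pool.Agent.TH639.SC

open Pool.Agent.W313.Hyp Pool.Agent.W343.BSD

section alg

open Polynomial

variable {ℓ : ℕ}

theorem contract_geom {B : Type*} [CommRing B] (hℓ : 0 < ℓ) (q : B) :
    contract ℓ (∑ i ∈ Finset.range ℓ, (Polynomial.C q * Polynomial.X : B[X]) ^ i) = 1 := by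
  ext n
  rw [coeff_contract hℓ.ne', Polynomial.finsetSum_coeff, Polynomial.coeff_one]
  have h1 : ∀ i ∈ Finset.range ℓ, ((Polynomial.C q * Polynomial.X : B[X]) ^ i).coeff (n * ℓ) =
      if n = 0 ∧ i = 0 then 1 else 0 := by
    intro i hi
    rw [Finset.mem_range] at hi
    rw [mul_pow, ← Polynomial.C_pow, Polynomial.coeff_C_mul, Polynomial.coeff_X_pow]
    rcases Nat.eq_zero_or_pos n with h0 | h0
    · subst h0
      rcases Nat.eq_zero_or_pos i with h | h
      · subst h; simp
      · rw [if_neg (by omega), if_neg (by omega), mul_zero]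
    · have h2 : ℓ ≤ n * ℓ := Nat.le_mul_of_pos_left ℓ h0
      rw [if_neg (by omega), if_neg (by omega), mul_zero]
  rw [Finset.sum_congr rfl h1]
  rcases Nat.eq_zero_or_pos n with h0 | h0
  · subst h0
    simp [hℓ.ne']
  · rw [Finset.sum_eq_zero]
    · rw [if_neg h0.ne']
    · intro i _
      rw [if_neg (by omega)]

theorem coprime_geom {K : Type*} [Field K] (hK : (ℓ : K) ≠ 0) (q : K) :
    IsCoprime (1 - Polynomial.C q * Polynomial.X : K[X])
      (∑ i ∈ Finset.range ℓ, (Polynomial.C q * Polynomial.X : K[X]) ^ i) := by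
  have h1 : (∑ i ∈ Finset.range ℓ, (Polynomial.C q * Polynomial.X : K[X]) ^ i) -
      Polynomial.C (ℓ : K) =
      ∑ i ∈ Finset.range ℓ, ((Polynomial.C q * Polynomial.X : K[X]) ^ i - 1) := by
    rw [Finset.sum_sub_distrib]
    simp
  have h2 : (1 - Polynomial.C q * Polynomial.X : K[X]) ∣
      ∑ i ∈ Finset.range ℓ, ((Polynomial.C q * Polynomial.X : K[X]) ^ i - 1) := by
    refine Finset.dvd_sum fun i _ => ?_
    refine dvd_trans ?_ (sub_one_dvd_pow_sub_one _ i)
    have h6 : (Polynomial.C q * Polynomial.X : K[X]) - 1 =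
        -(1 - Polynomial.C q * Polynomial.X) := by ring
    rw [h6, dvd_neg]
  rw [← h1] at h2
  obtain ⟨s, hs⟩ := h2
  have h3 : (Polynomial.C (ℓ : K)⁻¹ : K[X]) * Polynomial.C (ℓ : K) = 1 := by
    rw [← Polynomial.C_mul, inv_mul_cancel₀ hK, Polynomial.C_1]
  refine ⟨-(Polynomial.C (ℓ : K)⁻¹) * s, Polynomial.C (ℓ : K)⁻¹, ?_⟩
  linear_combination (Polynomial.C (ℓ : K)⁻¹ : K[X]) * hs + h3

theorem expand_linear {B : Type*} [CommRing B] (q : B) :
    expand B ℓ (1 - Polynomial.C (q ^ ℓ) * Polynomial.X) =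
      (∑ i ∈ Finset.range ℓ, (Polynomial.C q * Polynomial.X : B[X]) ^ i) *
        (1 - Polynomial.C q * Polynomial.X) := by
  rw [geom_sum_mul_neg, map_sub, map_one, map_mul, Polynomial.expand_C, Polynomial.expand_X,
    mul_pow, Polynomial.C_pow]

/-- a root `1 / q` of high order of `M(X ^ ℓ)` -/
theorem dvd_of_expand {K : Type*} [Field K] (hK : (ℓ : K) ≠ 0) (q : K) (r : ℕ) : ∀ M : K[X],
    (1 - Polynomial.C q * Polynomial.X) ^ r ∣ expand K ℓ M →
    (1 - Polynomial.C (q ^ ℓ) * Polynomial.X) ^ r ∣ M := by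
  have hℓ : 0 < ℓ := by
    rcases Nat.eq_zero_or_pos ℓ with h | h
    · rw [h, Nat.cast_zero] at hK
      exact absurd rfl hK
    · exact h
  set U : K[X] := ∑ i ∈ Finset.range ℓ, (Polynomial.C q * Polynomial.X : K[X]) ^ i with hU
  have hne : (1 - Polynomial.C q * Polynomial.X : K[X]) ≠ 0 := by
    intro h
    have h1 := congrArg (Polynomial.eval 0) h
    simp at h1
  induction r with
  | zero => intro M _; rw [pow_zero]; exact one_dvd _
  | succ r ih =>
    intro M hM
    obtain ⟨G, hG⟩ := hM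
    have h1 : U * expand K ℓ M =
        ((1 - Polynomial.C q * Polynomial.X) ^ r * G) *
          expand K ℓ (1 - Polynomial.C (q ^ ℓ) * Polynomial.X) := by
      rw [expand_linear, hG, ← hU]
      ring
    have h2 := congrArg (contract ℓ) h1
    rw [contract_mul_expand hℓ.ne', contract_mul_expand hℓ.ne', hU, contract_geom hℓ, one_mul] at h2
    set M1 := contract ℓ ((1 - Polynomial.C q * Polynomial.X) ^ r * G) with hM1
    have h3 : (1 - Polynomial.C q * Polynomial.X) ^ r ∣ expand K ℓ M1 := by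
      have h4 : U * expand K ℓ M1 = (1 - Polynomial.C q * Polynomial.X) ^ r * G := by
        apply mul_left_cancel₀ hne
        have h5 : expand K ℓ M = expand K ℓ M1 * (U * (1 - Polynomial.C q * Polynomial.X)) := by
          conv_lhs => rw [h2]
          rw [map_mul, expand_linear]
        calc (1 - Polynomial.C q * Polynomial.X) * (U * expand K ℓ M1) = expand K ℓ M := by
              rw [h5]; ring
          _ = _ := by rw [hG]; ring
      have h6 : IsCoprime ((1 - Polynomial.C q * Polynomial.X : K[X]) ^ r) U :=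
        (coprime_geom hK q).pow_left
      exact h6.dvd_of_dvd_mul_left ⟨G, h4⟩
    obtain ⟨M2, hM2⟩ := ih M1 h3
    refine ⟨M2, ?_⟩
    rw [h2, hM2]
    ring

/-- divisibility by a polynomial with invertible constant coefficient can be checked over a larger
ring -/
theorem dvd_of_map_dvd {A B : Type*} [CommRing A] [CommRing B] (ι : A →+* B)
    (hι : Function.Injective ι) {V M : A[X]} (hV : IsUnit (V.coeff 0))
    (h : V.map ι ∣ M.map ι) : V ∣ M := by
  obtain ⟨N, hN⟩ := h
  have hVu : IsUnit (V : PowerSeries A) := by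
    rw [PowerSeries.isUnit_iff_constantCoeff, Polynomial.constantCoeff_coe]
    exact hV
  obtain ⟨V', hV'⟩ := hVu.exists_right_inv
  set N0 : PowerSeries A := (M : PowerSeries A) * V' with hN0
  have h1 : PowerSeries.map ι N0 = (N : PowerSeries B) := by
    have h2 : PowerSeries.map ι (M : PowerSeries A) =
        PowerSeries.map ι (V : PowerSeries A) * (N : PowerSeries B) := by
      rw [← Polynomial.polynomial_map_coe, ← Polynomial.polynomial_map_coe, hN,
        Polynomial.coe_mul]
    have h3 : PowerSeries.map ι (V : PowerSeries A) * PowerSeries.map ι V' = 1 := by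
      rw [← map_mul, hV', map_one]
    rw [hN0, map_mul, h2]
    linear_combination (N : PowerSeries B) * h3
  have h4 : ∀ n, N.natDegree < n → PowerSeries.coeff n N0 = 0 := by
    intro n hn
    apply hι
    rw [map_zero, ← PowerSeries.coeff_map, h1, Polynomial.coeff_coe]
    exact Polynomial.coeff_eq_zero_of_natDegree_lt hn
  set M1 : A[X] := PowerSeries.trunc (N.natDegree + 1) N0 with hM1
  have h5 : (M1 : PowerSeries A) = N0 := by
    ext n
    rw [Polynomial.coeff_coe, hM1, PowerSeries.coeff_trunc]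
    split_ifs with h
    · rfl
    · exact (h4 n (by omega)).symm
  refine ⟨M1, ?_⟩
  apply Polynomial.coe_injective A
  rw [Polynomial.coe_mul, h5, hN0]
  linear_combination -(M : PowerSeries A) * hV'

theorem dvd_of_expand' {A : Type} [CommRing A] [IsDomain A] [CharZero A] (hℓ : 0 < ℓ) (q : A)
    (r : ℕ) (M : A[X]) (h : (1 - Polynomial.C q * Polynomial.X) ^ r ∣ expand A ℓ M) :
    (1 - Polynomial.C (q ^ ℓ) * Polynomial.X) ^ r ∣ M := by
  let K := FractionRing A
  let ι : A →+* K := algebraMap A K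
  have hι : Function.Injective ι := IsFractionRing.injective A K
  have hc : CharZero K := charZero_of_injective_algebraMap hι
  apply dvd_of_map_dvd ι hι
  · rw [← Polynomial.constantCoeff_apply, map_pow, map_sub, map_one, map_mul,
      Polynomial.constantCoeff_apply, Polynomial.constantCoeff_apply, Polynomial.coeff_X_zero,
      mul_zero, sub_zero, one_pow]
    exact isUnit_one
  · have h1 := Polynomial.map_dvd ι h
    rw [Polynomial.map_pow, Polynomial.map_sub, Polynomial.map_one, Polynomial.map_mul,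
      Polynomial.map_C, Polynomial.map_X, Polynomial.map_expand] at h1
    have h2 := dvd_of_expand (K := K) (Nat.cast_ne_zero.2 hℓ.ne') (ι q) r _ h1
    rwa [Polynomial.map_pow, Polynomial.map_sub, Polynomial.map_one, Polynomial.map_mul,
      Polynomial.map_C, Polynomial.map_X, map_pow]

end alg

section ismu

variable {R : Type} [Field R]

/-- The power series is a polynomial, not zero, with multiplicity `n` of the root one. -/
def IsMu (p : PowerSeries R) (n : ℕ) : Prop :=
  ∃ P : Polynomial R, (P : PowerSeries R) = p ∧ P ≠ 0 ∧ P.rootMultiplicity 1 = n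

theorem IsMu.one : IsMu (1 : PowerSeries R) 0 :=
  ⟨1, Polynomial.coe_one, one_ne_zero, rm_one 1⟩

theorem rm_zf {ℓ : ℕ} [hp : Fact ℓ.Prime] [CharP R ℓ] {n : ℕ} (hn : 0 < n) :
    (1 - Polynomial.X ^ n : Polynomial R) ≠ 0 ∧
      (1 - Polynomial.X ^ n : Polynomial R).rootMultiplicity 1 = ℓ ^ padicValNat ℓ n := by
  have h1 := Pool.Agent.W309.T3.binom_ne (F := ZMod ℓ) (c := 1) hn
  have h2 := Pool.Agent.W309.T3.rm_binom ℓ (c := 1) (x := 1) one_ne_zero hn
  rw [Polynomial.C_1, one_mul] at h1 h2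
  rw [if_pos (by simp)] at h2
  let φ : ZMod ℓ →+* R := ZMod.castHom dvd_rfl R
  have hφ : Function.Injective φ := φ.injective
  have h3 : (1 - Polynomial.X ^ n : Polynomial (ZMod ℓ)).map φ = 1 - Polynomial.X ^ n := by
    rw [Polynomial.map_sub, Polynomial.map_one, Polynomial.map_pow, Polynomial.map_X]
  have h4 := Polynomial.eq_rootMultiplicity_map (p := (1 - Polynomial.X ^ n : Polynomial (ZMod ℓ)))
    hφ 1
  rw [h3, map_one, h2] at h4
  refine ⟨?_, h4.symm⟩
  rw [← h3]
  exact (Polynomial.map_ne_zero_iff hφ).2 h1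

theorem IsMu.zf {ℓ : ℕ} [hp : Fact ℓ.Prime] [CharP R ℓ] {n : ℕ} (hn : 0 < n) :
    IsMu (1 - X ^ n : PowerSeries R) (ℓ ^ padicValNat ℓ n) := by
  obtain ⟨h1, h2⟩ := rm_zf (R := R) (ℓ := ℓ) hn
  refine ⟨1 - Polynomial.X ^ n, ?_, h1, h2⟩
  rw [Polynomial.coe_sub, Polynomial.coe_one, Polynomial.coe_pow, Polynomial.coe_X]

theorem IsMu.oneX {ℓ : ℕ} [hp : Fact ℓ.Prime] [CharP R ℓ] :
    IsMu (1 - X : PowerSeries R) 1 := by
  have h := IsMu.zf (R := R) (ℓ := ℓ) one_pos
  rwa [pow_one, padicValNat_one_right, pow_zero] at h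

theorem IsMu.mul {p q : PowerSeries R} {m n : ℕ} (hp : IsMu p m) (hq : IsMu q n) :
    IsMu (p * q) (m + n) := by
  obtain ⟨P, rfl, hP, rfl⟩ := hp
  obtain ⟨Q, rfl, hQ, rfl⟩ := hq
  exact ⟨P * Q, Polynomial.coe_mul P Q, mul_ne_zero hP hQ, rm_mul 1 hP hQ⟩

theorem IsMu.pow {p : PowerSeries R} {m : ℕ} (hp : IsMu p m) (n : ℕ) :
    IsMu (p ^ n) (n * m) := by
  induction n with
  | zero => rw [pow_zero, Nat.zero_mul]; exact IsMu.one
  | succ n ih => rw [pow_succ, Nat.succ_mul]; exact ih.mul hp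

theorem IsMu.prod {ι : Type*} (s : Finset ι) {p : ι → PowerSeries R} {m : ι → ℕ}
    (h : ∀ i ∈ s, IsMu (p i) (m i)) : IsMu (∏ i ∈ s, p i) (∑ i ∈ s, m i) := by
  classical
  induction s using Finset.induction_on with
  | empty => exact IsMu.one
  | insert i s hi ih =>
    rw [Finset.prod_insert hi, Finset.sum_insert hi]
    exact (h i (Finset.mem_insert_self i s)).mul
      (ih fun j hj => h j (Finset.mem_insert_of_mem hj))

/-- **the sum of the orders of the twists** -/
theorem sum_bound {ℓ : ℕ} [hp : Fact ℓ.Prime] [CharP R ℓ] {A : Type} [CommRing A] [IsDomain A]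
    [CharZero A] (ρ : A →+* R) {q : ℕ} (hq : (q : R) = 1) (L : ℕ → PowerSeries A) (r : ℕ → ℕ)
    (G : ℕ → Polynomial A)
    (hG : ∀ j ∈ Finset.range ℓ, L j =
      (((1 - Polynomial.C (q : A) * Polynomial.X) ^ (r j) * G j : Polynomial A) : PowerSeries A))
    (hS : Sup ℓ (∏ j ∈ Finset.range ℓ, L j)) {U V : PowerSeries R} {a b : ℕ}
    (hU : IsMu U a) (hV : IsMu V b)
    (hred : ∀ j ∈ Finset.range ℓ, PowerSeries.map ρ (L j) * U = V) :
    ∑ j ∈ Finset.range ℓ, r j + a ≤ b := by
  have hℓ : 0 < ℓ := hp.out.pos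
  set N := ∑ j ∈ Finset.range ℓ, r j with hN
  set P : Polynomial A := (1 - Polynomial.C (q : A) * Polynomial.X) ^ N *
    ∏ j ∈ Finset.range ℓ, G j with hP
  have hprod : ∏ j ∈ Finset.range ℓ, L j = (P : PowerSeries A) := by
    rw [Finset.prod_congr rfl hG, hP, hN, ← Finset.prod_pow_eq_pow_sum, ← Finset.prod_mul_distrib]
    exact (coe_prod' _ _).symm
  set M := Polynomial.contract ℓ P with hM
  have hexp : Polynomial.expand A ℓ M = P := by
    ext n
    rw [Polynomial.coeff_expand hℓ, hM, Polynomial.coeff_contract hℓ.ne']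
    split_ifs with h
    · rw [Nat.div_mul_cancel h]
    · have h1 := hS n h
      rw [hprod, Polynomial.coeff_coe] at h1
      exact h1.symm
  obtain ⟨M1, hM1⟩ := dvd_of_expand' hℓ (q : A) N M (by rw [hexp, hP]; exact dvd_mul_right _ _)
  have hPred : P.map ρ = ((1 - Polynomial.X) ^ ℓ) ^ N * (Polynomial.expand A ℓ M1).map ρ := by
    rw [← hexp, hM1, map_mul, map_pow, Polynomial.map_mul, Polynomial.map_pow]
    congr 2
    rw [map_sub, map_one, map_mul, Polynomial.expand_C, Polynomial.expand_X, Polynomial.map_sub,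
      Polynomial.map_one, Polynomial.map_mul, Polynomial.map_C, Polynomial.map_pow,
      Polynomial.map_X, map_pow, map_natCast, hq]
    have hex : ExpChar (Polynomial R) ℓ := inferInstance
    rw [one_pow, Polynomial.C_1, one_mul, sub_pow_expChar, one_pow]
  have hredP : PowerSeries.map ρ (∏ j ∈ Finset.range ℓ, L j) =
      ((P.map ρ : Polynomial R) : PowerSeries R) := by
    rw [hprod, Polynomial.polynomial_map_coe]
  have hmul : PowerSeries.map ρ (∏ j ∈ Finset.range ℓ, L j) * U ^ ℓ = V ^ ℓ := by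
    rw [map_prod]
    have h1 : U ^ ℓ = ∏ j ∈ Finset.range ℓ, U := by
      rw [Finset.prod_const, Finset.card_range]
    have h2 : V ^ ℓ = ∏ j ∈ Finset.range ℓ, V := by
      rw [Finset.prod_const, Finset.card_range]
    rw [h1, h2, ← Finset.prod_mul_distrib]
    exact Finset.prod_congr rfl hred
  obtain ⟨U1, hU1, hU0, hUm⟩ := hU.pow ℓ
  obtain ⟨V1, hV1, hV0, hVm⟩ := hV.pow ℓ
  rw [← hU1, ← hV1, hredP, ← Polynomial.coe_mul] at hmul
  have hpoly := Polynomial.coe_injective R hmul
  have hP0 : P.map ρ ≠ 0 := by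
    intro h
    rw [h, zero_mul] at hpoly
    exact hV0 hpoly.symm
  have hrm := congrArg (Polynomial.rootMultiplicity 1) hpoly
  rw [rm_mul 1 hP0 hU0, hUm, hVm] at hrm
  rw [hPred] at hP0 hrm
  obtain ⟨hX, hXm⟩ := rm_zf (R := R) (ℓ := ℓ) one_pos
  rw [pow_one, padicValNat_one_right, pow_zero] at hXm
  rw [pow_one] at hX
  rw [rm_mul 1 (left_ne_zero_of_mul hP0) (right_ne_zero_of_mul hP0),
    rm_pow 1 (pow_ne_zero _ hX), rm_pow 1 hX, hXm] at hrm
  have h9 : ℓ * (N + a) ≤ ℓ * b := by
    rw [mul_one] at hrm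
    rw [← hrm, Nat.mul_add, Nat.mul_comm N ℓ]
    omega
  exact Nat.le_of_mul_le_mul_left h9 hℓ

end ismu

end Pool.Agent.TH639.SC
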