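import Pool.Agent.TH639.SC.Fin

/-!
The bounds in terms of the prime factors.
-/

set_option autoImplicit false
set_option maxHeartbeats 1000000

open Polynomial

namespace Pool.Agent.TH639.SC

open Pool.Agent.W313.Hyp Pool.Agent.W343.BSD
open Pool.Agent.TH943.HJ (comp_ne)

section

variable {k : Type} [Field k]

open Classical in
/-- The monic irreducible factors of a polynomial. -/
noncomputable def primes (g : k[X]) : Finset k[X] :=
  (UniqueFactorizationMonoid.normalizedFactors g).toFinset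

theorem mem_primes {g : k[X]} (hg : g ≠ 0) (P : k[X]) :
    P ∈ primes g ↔ P.Monic ∧ Irreducible P ∧ P ∣ g := by
  classical
  unfold primes
  rw [Multiset.mem_toFinset, Polynomial.mem_normalizedFactors_iff hg]
  tauto

variable [Finite k]

theorem sum_primes {M : Type} [AddCommMonoid M] {g : k[X]} (hg : g ≠ 0) (h : k[X] → M) :
    ∑ P ∈ facs g, h P.1 = ∑ P ∈ primes g, h P := by
  classical
  refine Finset.sum_bij (fun P _ => P.1) ?_ ?_ ?_ ?_
  · intro P hP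
    rw [mem_facs hg] at hP
    exact (mem_primes hg _).2 ⟨P.2.1, P.2.2, hP⟩
  · intro P _ Q _ h
    exact Subtype.ext h
  · intro P hP
    obtain ⟨h1, h2, h3⟩ := (mem_primes hg _).1 hP
    exact ⟨⟨P, h1, h2⟩, (mem_facs hg _).2 h3, rfl⟩
  · intro P _
    rfl

omit [Finite k] in
theorem primes_pow {v : k[X]} (hm : v.Monic) (hv : Irreducible v) {a : ℕ} (ha : a ≠ 0) :
    primes (v ^ a) = {v} := by
  ext S
  rw [mem_primes (pow_ne_zero a hv.ne_zero), Finset.mem_singleton]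
  constructor
  · rintro ⟨h1, h2, h3⟩
    exact eq_of_monic_of_associated h1 hm (h2.associated_of_dvd hv (h2.prime.dvd_of_dvd_pow h3))
  · rintro rfl
    exact ⟨hm, hv, dvd_pow_self _ ha⟩

/-- a factor prime to `ℓ` does not change the valuation -/
theorem val_lcm {ℓ : ℕ} (hℓ : ℓ.Prime) {n m : ℕ} (hn : 0 < n) (hm : 0 < m) (h : ¬ ℓ ∣ m) :
    padicValNat ℓ (Nat.lcm n m) = padicValNat ℓ n := by
  have hF : Fact ℓ.Prime := ⟨hℓ⟩
  obtain ⟨c, hc⟩ : n ∣ Nat.lcm n m := Nat.dvd_lcm_left n m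
  have hl := Nat.lcm_pos hn hm
  have hc0 : c ≠ 0 := by
    rintro rfl
    omega
  have hco : ¬ ℓ ∣ c := by
    intro h'
    apply h
    have h1 : Nat.gcd n m * Nat.lcm n m = n * m := Nat.gcd_mul_lcm n m
    rw [hc] at h1
    have h2 : Nat.gcd n m * c = m := by
      apply Nat.eq_of_mul_eq_mul_left hn
      rw [← h1]; ring
    rw [← h2]
    exact h'.mul_left _
  rw [hc, padicValNat.mul hn.ne' hc0, padicValNat.eq_zero_of_not_dvd hco, add_zero]

open Classical in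
/-- the bound without branching at `x = ∞` -/
noncomputable def bnd (ℓ : ℕ) (u f D : k[X]) : ℤ :=
  1 + ∑ P ∈ primes D, (∑ S ∈ primes (P.comp f), (ℓ : ℤ) ^ padicValNat ℓ S.natDegree +
      ∑ S ∈ primes u, (Nat.gcd P.natDegree S.natDegree : ℤ) *
        (ℓ : ℤ) ^ padicValNat ℓ (Nat.lcm P.natDegree S.natDegree) -
      2 * (ℓ : ℤ) ^ padicValNat ℓ P.natDegree) +
    (if ℓ ∣ D.natDegree + 1 then
      1 - ∑ S ∈ primes u, (ℓ : ℤ) ^ padicValNat ℓ S.natDegree else 0)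

theorem cD_eq (ℓ : ℕ) {D : k[X]} (hD : D ≠ 0) :
    (cD ℓ D : ℤ) = ∑ P ∈ primes D, (ℓ : ℤ) ^ padicValNat ℓ P.natDegree := by
  unfold cD
  push_cast
  exact sum_primes hD (fun P => (ℓ : ℤ) ^ padicValNat ℓ P.natDegree)

theorem cPhi_eq (ℓ : ℕ) {f D : k[X]} (hf : 0 < f.natDegree) (hD : D ≠ 0) :
    (cPhi ℓ f D : ℤ) =
      ∑ P ∈ primes D, ∑ S ∈ primes (P.comp f), (ℓ : ℤ) ^ padicValNat ℓ S.natDegree := by
  unfold cPhi
  push_cast
  rw [← sum_primes hD (fun P => ∑ S ∈ primes (P.comp f), (ℓ : ℤ) ^ padicValNat ℓ S.natDegree)]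
  refine Finset.sum_congr rfl fun P _ => ?_
  exact sum_primes (comp_ne hf P) (fun S => (ℓ : ℤ) ^ padicValNat ℓ S.natDegree)

theorem cPsi_eq (ℓ : ℕ) {u D : k[X]} (hu : u ≠ 0) (hD : D ≠ 0) :
    (cPsi ℓ u D : ℤ) = ∑ P ∈ primes D, ∑ S ∈ primes u,
      (Nat.gcd P.natDegree S.natDegree : ℤ) *
        (ℓ : ℤ) ^ padicValNat ℓ (Nat.lcm P.natDegree S.natDegree) := by
  unfold cPsi
  push_cast
  rw [← sum_primes hD (fun P => ∑ S ∈ primes u, (Nat.gcd P.natDegree S.natDegree : ℤ) *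
        (ℓ : ℤ) ^ padicValNat ℓ (Nat.lcm P.natDegree S.natDegree))]
  refine Finset.sum_congr rfl fun P _ => ?_
  exact sum_primes hu (fun S => (Nat.gcd P.1.natDegree S.natDegree : ℤ) *
        (ℓ : ℤ) ^ padicValNat ℓ (Nat.lcm P.1.natDegree S.natDegree))

theorem bnd_eq (ℓ : ℕ) {u f D : k[X]} (hu : u ≠ 0) (hf : 0 < f.natDegree) (hD : D ≠ 0) :
    (((cPsi ℓ u D + cPhi ℓ f D) + (1 + (if ℓ ∣ D.natDegree + 1 then 1 else 0)) : ℕ) : ℤ) -
      ((cD ℓ D + (cD ℓ D +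
      (if ℓ ∣ D.natDegree + 1 then ∑ S ∈ facs u, ℓ ^ padicValNat ℓ S.1.natDegree else 0)) : ℕ) :
        ℤ) = bnd ℓ u f D := by
  classical
  unfold bnd
  rw [Finset.sum_sub_distrib, Finset.sum_add_distrib, ← Finset.mul_sum, ← cD_eq ℓ hD,
    ← cPhi_eq ℓ hf hD, ← cPsi_eq ℓ hu hD, ← sum_primes hu]
  split_ifs
  · push_cast
    ring
  · push_cast
    ring

open Classical in
/-- the bound for one line and the map `x ↦ x ^ n` -/
theorem bnd_le {ℓ : ℕ} (hℓ : ℓ.Prime) {n : ℕ} (hn : n.Prime) (ho : Odd n) (hnℓ : ¬ ℓ ∣ n)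
    {v : k[X]} (hm : v.Monic) (hv : Irreducible v) (hvℓ : ¬ ℓ ∣ v.natDegree) {a : ℕ} (ha : a ≠ 0)
    {D : k[X]} (hD : D ≠ 0) (hcop : ∀ P ∈ primes D, Nat.Coprime P.natDegree v.natDegree) :
    bnd ℓ (v ^ a) (X ^ n) D ≤ 1 + ((n : ℤ) - 1) *
      ∑ P ∈ (primes D).filter (fun P => Pool.Agent.TH943.CY.PowCoeff n P),
        (ℓ : ℤ) ^ padicValNat ℓ P.natDegree := by
  unfold bnd
  rw [primes_pow hm hv ha]
  simp only [Finset.sum_singleton]
  have hvp : 0 < v.natDegree := hv.natDegree_pos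
  have h0 : (if ℓ ∣ D.natDegree + 1 then 1 - (ℓ : ℤ) ^ padicValNat ℓ v.natDegree else 0) = 0 := by
    rw [padicValNat.eq_zero_of_not_dvd hvℓ, pow_zero, sub_self, ite_self]
  rw [h0, add_zero, Finset.mul_sum, Finset.sum_filter]
  have hfn : 0 < (X ^ n : k[X]).natDegree := by
    rw [natDegree_X_pow]; exact hn.pos
  have h1 : ∀ P ∈ primes D, (∑ S ∈ primes (P.comp (X ^ n)), (ℓ : ℤ) ^ padicValNat ℓ S.natDegree +
      (Nat.gcd P.natDegree v.natDegree : ℤ) *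
        (ℓ : ℤ) ^ padicValNat ℓ (Nat.lcm P.natDegree v.natDegree) -
      2 * (ℓ : ℤ) ^ padicValNat ℓ P.natDegree) ≤
      if Pool.Agent.TH943.CY.PowCoeff n P then
        ((n : ℤ) - 1) * (ℓ : ℤ) ^ padicValNat ℓ P.natDegree else 0 := by
    intro P hP
    obtain ⟨p1, p2, _⟩ := (mem_primes hD P).1 hP
    have hPp : 0 < P.natDegree := p2.natDegree_pos
    rw [(hcop P hP).gcd_eq_one, val_lcm hℓ hPp hvp hvℓ, Nat.cast_one, one_mul]
    have h2 : ∑ S ∈ primes (P.comp (X ^ n)), (ℓ : ℤ) ^ padicValNat ℓ S.natDegree =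
        ((∑ S ∈ facs (P.comp (X ^ n)), ℓ ^ padicValNat ℓ S.1.natDegree : ℕ) : ℤ) := by
      rw [← sum_primes (comp_ne hfn ⟨P, p1, p2⟩)]
      push_cast
      rfl
    rw [h2]
    split_ifs with h
    · have h3 := sum_over_le hℓ hfn ⟨P, p1, p2⟩
      rw [natDegree_X_pow] at h3
      have h4 : ((∑ S ∈ facs (P.comp (X ^ n)), ℓ ^ padicValNat ℓ S.1.natDegree : ℕ) : ℤ) ≤
          ((n * ℓ ^ padicValNat ℓ P.natDegree : ℕ) : ℤ) := by exact_mod_cast h3
      push_cast at h4 ⊢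
      linarith
    · have h3 := sum_over_pow hℓ hn ho hnℓ ⟨P, p1, p2⟩ h
      have h4 : ((∑ S ∈ facs (P.comp (X ^ n)), ℓ ^ padicValNat ℓ S.1.natDegree : ℕ) : ℤ) =
          ((ℓ ^ padicValNat ℓ P.natDegree : ℕ) : ℤ) := by exact_mod_cast h3
      rw [h4]
      push_cast
      linarith
  have h5 := Finset.sum_le_sum h1
  have h6 : ∑ P ∈ primes D, (if Pool.Agent.TH943.CY.PowCoeff n P then
      ((n : ℤ) - 1) * (ℓ : ℤ) ^ padicValNat ℓ P.natDegree else 0) =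
      ∑ P ∈ primes D, (if Pool.Agent.TH943.CY.PowCoeff n P then
      ((n : ℤ) - 1) * (ℓ : ℤ) ^ padicValNat ℓ P.natDegree else 0) := rfl
  linarith

end

end Pool.Agent.TH639.SC
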