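import Pool.Agent.TH639.SC.Alg
import Pool.Agent.TH943.CY.Cnt
import Mathlib.RingTheory.Ideal.GoingUp

/-!
The orders of vanishing of the `χ`-parts for the twists of the Jacobians of
`y ^ ℓ = D(t) u(x) (f(x) - t)`.
-/

set_option autoImplicit false
set_option maxHeartbeats 1000000

open PowerSeries

namespace Pool.Agent.TH639.SC

open Pool.Agent.W313.Hyp Pool.Agent.W343.BSD
open Pool.Agent.TH943.HJ (RF finRF fd1 fd2 fib fib_ne comp_ne down down_deg down_surj)
open Pool.Agent.TH943.LP (facs_unit)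

section ring

/-- a prime over `ℓ` -/
theorem exists_red (A : Type) [CommRing A] [CharZero A] [Algebra.IsIntegral ℤ A]
    {ℓ : ℕ} (hℓ : ℓ.Prime) : ∃ M : Ideal A, M.IsMaximal ∧ (ℓ : A) ∈ M := by
  have hp : Prime (ℓ : ℤ) := Nat.prime_iff_prime_int.1 hℓ
  have hmax : (Ideal.span {(ℓ : ℤ)}).IsMaximal :=
    PrincipalIdealRing.isMaximal_of_irreducible hp.irreducible
  have hker : RingHom.ker (algebraMap ℤ A) ≤ Ideal.span {(ℓ : ℤ)} := by
    intro z hz
    rw [RingHom.mem_ker] at hz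
    have h1 : (algebraMap ℤ A) z = ((z : ℤ) : A) := by simp
    rw [h1, Int.cast_eq_zero] at hz
    rw [hz]
    exact Ideal.zero_mem _
  obtain ⟨Q, hQ, hc⟩ := Ideal.exists_ideal_over_maximal_of_isIntegral (S := A)
    (Ideal.span {(ℓ : ℤ)}) hker
  refine ⟨Q, hQ, ?_⟩
  have h2 : (ℓ : ℤ) ∈ Q.comap (algebraMap ℤ A) := by
    rw [hc]
    exact Ideal.mem_span_singleton_self _
  rw [Ideal.mem_comap] at h2
  simpa using h2

theorem charP_of_mem {R : Type} [Field R] {ℓ : ℕ} (hℓ : ℓ.Prime) (h : (ℓ : R) = 0) :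
    CharP R ℓ := by
  obtain ⟨p, hp⟩ := CharP.exists R
  have h1 : p ∣ ℓ := (CharP.cast_eq_zero_iff R p ℓ).1 h
  rcases (Nat.dvd_prime hℓ).1 h1 with h2 | h2
  · exact absurd h2 (CharP.char_ne_one R p)
  · rw [← h2]
    exact hp

end ring

section

variable {k : Type} [Field k] [Finite k] {A : Type} [CommRing A]

open Classical in
/-- The Euler factor at `t = ∞`. -/
noncomputable def infT (ℓ : ℕ) (χ : MulChar k A) (u D : Polynomial k) : PowerSeries A :=
  if ℓ ∣ D.natDegree + 1 then locL χ (Polynomial.C (-D.leadingCoeff) * u) 1 else 1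

/-- the `L`-function without branching at `x = ∞` -/
noncomputable def LB (ℓ : ℕ) (χ : MulChar k A) (u f D : Polynomial k) : PowerSeries A :=
  LF χ u f D * locL χ D 1 * infT ℓ χ u D

theorem sup_LB [IsDomain A] {ℓ : ℕ} (hℓ : ℓ.Prime) {χ : MulChar k A} (hχ : orderOf χ = ℓ) {e : k}
    (he0 : e ≠ 0) (he : ¬ ∃ v : k, v ^ ℓ = e) (u f D : Polynomial k) :
    Sup ℓ (∏ j ∈ Finset.range ℓ, LB ℓ χ u f (Polynomial.C (e ^ j) * D)) := by
  unfold LB
  rw [Finset.prod_mul_distrib, Finset.prod_mul_distrib]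
  refine ((sup_LF hℓ hχ he0 he u f D).mul (sup_locL hℓ hχ he0 he D)).mul ?_
  unfold infT
  by_cases hd : ℓ ∣ D.natDegree + 1
  · refine (congrArg (Sup ℓ) (Finset.prod_congr rfl fun j _ => ?_)).mp (sup_locL hℓ hχ he0 he
      (Polynomial.C (-D.leadingCoeff) * u))
    rw [Polynomial.natDegree_C_mul (pow_ne_zero j he0), if_pos hd, ← mul_assoc, ← Polynomial.C_mul,
      Polynomial.leadingCoeff_mul, Polynomial.leadingCoeff_C, mul_neg]
  · refine (congrArg (Sup ℓ) (Finset.prod_congr rfl fun j _ => ?_)).mp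
      (Sup.prod (Finset.range ℓ) fun _ _ => Sup.one (A := A))
    rw [Polynomial.natDegree_C_mul (pow_ne_zero j he0), if_neg hd]

variable {R : Type} [Field R] {ℓ : ℕ} [hp : Fact ℓ.Prime] [CharP R ℓ]

omit [Finite k] in
theorem isMu_Psi (u : Polynomial k) {n : ℕ} (hn : 0 < n) :
    IsMu (Psi R u n) (∑ S ∈ facs u, Nat.gcd n S.1.natDegree *
      ℓ ^ padicValNat ℓ (Nat.lcm n S.1.natDegree)) :=
  IsMu.prod _ fun S _ => (IsMu.zf (Nat.lcm_pos hn (MI.deg_pos S))).pow _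

omit [Finite k] in
theorem isMu_facs (s : Finset (MI k)) :
    IsMu (∏ S ∈ s, (1 - X ^ S.1.natDegree) : PowerSeries R)
      (∑ S ∈ s, ℓ ^ padicValNat ℓ S.1.natDegree) :=
  IsMu.prod _ fun S _ => IsMu.zf (MI.deg_pos S)

theorem Xi_eq_one {u f D : Polynomial k} (hu : u ≠ 0) (hf : 0 < f.natDegree) (hD : D ≠ 0)
    (hcop : IsCoprime (D.comp f) u) {P : MI k} (hP : P ∈ facs D) : Xi R u f P = 1 := by
  classical
  unfold Xi
  refine Finset.prod_eq_one fun S hS => if_neg fun hSu => ?_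
  rw [mem_facs (comp_ne hf P)] at hS
  rw [mem_facs hD] at hP
  obtain ⟨v, hv⟩ := hP
  have h1 : S.1 ∣ D.comp f := by
    rw [hv, Polynomial.mul_comp]
    exact hS.mul_right _
  exact S.2.2.not_isUnit (hcop.isUnit_of_dvd' h1 hSu)

/-- the identity when `D(f(x))` is prime to `u(x)` -/
theorem identity' (ρ : A →+* R) {χ : MulChar k A} (hχ : χ ^ ℓ = 1)
    (hq : ((Nat.card k : ℕ) : R) = 1) {u f D : Polynomial k}
    (hu : u ≠ 0) (hf : 0 < f.natDegree) (hD : D ≠ 0) (hcop : IsCoprime (D.comp f) u) :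
    PowerSeries.map ρ (LF χ u f D) * ∏ P ∈ facs D, (1 - X ^ P.1.natDegree) =
      ∏ P ∈ facs D, (Psi R u P.1.natDegree * Phi R f P) := by
  rw [← identity ρ hχ hq hu hf hD]
  congr 1
  refine Finset.prod_congr rfl fun P hP => ?_
  rw [Xi_eq_one hu hf hD hcop hP, mul_one]

open Classical in
theorem identity_LB (ρ : A →+* R) {χ : MulChar k A} (hχ : χ ^ ℓ = 1)
    (hq : ((Nat.card k : ℕ) : R) = 1) {u f D : Polynomial k}
    (hu : u ≠ 0) (hf : 0 < f.natDegree) (hD : D ≠ 0) (hcop : IsCoprime (D.comp f) u) :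
    PowerSeries.map ρ (LB ℓ χ u f D) * ((∏ P ∈ facs D, (1 - X ^ P.1.natDegree)) *
      ((∏ P ∈ facs D, (1 - X ^ P.1.natDegree)) *
      (if ℓ ∣ D.natDegree + 1 then ∏ S ∈ facs u, (1 - X ^ S.1.natDegree) else 1))) =
      (∏ P ∈ facs D, (Psi R u P.1.natDegree * Phi R f P)) *
      ((1 - X) * (if ℓ ∣ D.natDegree + 1 then 1 - X else 1)) := by
  have h1 := identity' ρ hχ hq hu hf hD hcop
  have h2 : PowerSeries.map ρ (locL χ D 1) * ∏ P ∈ facs D, (1 - X ^ P.1.natDegree) = 1 - X := by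
    have := locL_red (F := k) ρ hχ hq hD one_pos
    simpa only [one_mul, pow_one] using this
  have h3 : PowerSeries.map ρ (infT ℓ χ u D) *
      (if ℓ ∣ D.natDegree + 1 then ∏ S ∈ facs u, (1 - X ^ S.1.natDegree) else 1) =
      (if ℓ ∣ D.natDegree + 1 then 1 - X else 1) := by
    unfold infT
    split_ifs with ho
    · have hc : -D.leadingCoeff ≠ 0 := neg_ne_zero.2 (Polynomial.leadingCoeff_ne_zero.2 hD)
      have := locL_red (F := k) ρ hχ hq (g := Polynomial.C (-D.leadingCoeff) * u)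
        (mul_ne_zero (Polynomial.C_ne_zero.2 hc) hu) one_pos
      rw [facs_unit hu hc] at this
      simpa only [one_mul, pow_one] using this
    · rw [map_one, one_mul]
  unfold LB
  rw [map_mul, map_mul, ← h3, ← h1, ← h2]
  ring

/-- the sum over the points over the prime factors of `D` -/
noncomputable def cPhi (ℓ : ℕ) (f D : Polynomial k) : ℕ :=
  ∑ P ∈ facs D, ∑ S ∈ facs (P.1.comp f), ℓ ^ padicValNat ℓ S.1.natDegree

/-- the sum over the points of the lines -/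
noncomputable def cPsi (ℓ : ℕ) (u D : Polynomial k) : ℕ :=
  ∑ P ∈ facs D, ∑ S ∈ facs u, Nat.gcd P.1.natDegree S.1.natDegree *
    ℓ ^ padicValNat ℓ (Nat.lcm P.1.natDegree S.1.natDegree)

/-- the sum over the prime factors -/
noncomputable def cD (ℓ : ℕ) (D : Polynomial k) : ℕ :=
  ∑ P ∈ facs D, ℓ ^ padicValNat ℓ P.1.natDegree

theorem isMu_right (u f D : Polynomial k) :
    IsMu (∏ P ∈ facs D, (Psi R u P.1.natDegree * Phi R f P)) (cPsi ℓ u D + cPhi ℓ f D) := by
  unfold cPsi cPhi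
  rw [← Finset.sum_add_distrib]
  exact IsMu.prod _ fun P _ => (isMu_Psi u (MI.deg_pos P)).mul (isMu_facs _)

end

section final

variable {k : Type} [Field k] [Finite k] {A : Type} [CommRing A] [IsDomain A] [CharZero A]
  [Algebra.IsIntegral ℤ A] {ℓ : ℕ}

omit [IsDomain A] in
/-- the reduction -/
theorem exists_hom (hℓ : ℓ.Prime) (hd : ℓ ∣ Nat.card k - 1) :
    ∃ (R : Type) (_ : Field R) (_ : CharP R ℓ) (_ : A →+* R), ((Nat.card k : ℕ) : R) = 1 := by
  obtain ⟨M, hM, hm⟩ := exists_red A hℓ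
  letI : Field (A ⧸ M) := Ideal.Quotient.field M
  have h0 : ((ℓ : ℕ) : A ⧸ M) = 0 := by
    have := Ideal.Quotient.eq_zero_iff_mem.2 hm
    rwa [map_natCast] at this
  have hc := charP_of_mem (R := A ⧸ M) hℓ h0
  refine ⟨A ⧸ M, inferInstance, hc, Ideal.Quotient.mk M, ?_⟩
  have hk1 : 1 < Nat.card k := Finite.one_lt_card
  have h1 := (CharP.cast_eq_zero_iff (A ⧸ M) ℓ (Nat.card k - 1)).2 hd
  rw [Nat.cast_sub hk1.le, Nat.cast_one, sub_eq_zero] at h1
  exact h1

omit [IsDomain A] [CharZero A] [Algebra.IsIntegral ℤ A] in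
theorem dvd_card (hℓ : ℓ.Prime) {χ : MulChar k A} (hχ : orderOf χ = ℓ) :
    ℓ ∣ Nat.card k - 1 := by
  obtain ⟨g, hg⟩ := IsCyclic.exists_generator (α := kˣ)
  have h1 : χ ^ (Nat.card k - 1) = 1 := by
    have hk1 : 1 < Nat.card k := Finite.one_lt_card
    apply MulChar.ext
    intro a
    have := Fintype.ofFinite k
    rw [MulChar.pow_apply' χ (by omega), MulChar.one_apply a.isUnit, ← map_pow,
      Nat.card_eq_fintype_card, FiniteField.pow_card_sub_one_eq_one _ a.ne_zero, map_one]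
  have h2 := orderOf_dvd_of_pow_eq_one h1
  rwa [hχ] at h2

theorem facs_C_mul {e : k} (he : e ≠ 0) {D : Polynomial k} (hD : D ≠ 0) :
    facs (Polynomial.C e * D) = facs D := facs_unit hD he

/-- **the sum of the orders, no branching at `x = ∞`** -/
theorem order_sum_B (hℓ : ℓ.Prime) {χ : MulChar k A} (hχ : orderOf χ = ℓ) {e : k}
    (he : ¬ ∃ v : k, v ^ ℓ = e) {u f D : Polynomial k} (hu : u ≠ 0) (hf : 0 < f.natDegree)
    (hD : D ≠ 0) (hcop : IsCoprime (D.comp f) u) (r : ℕ → ℕ)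
    (hr : ∀ j, j < ℓ → ∃ G : Polynomial A, LB ℓ χ u f (Polynomial.C (e ^ j) * D) =
      (((1 - Polynomial.C (Nat.card k : A) * Polynomial.X) ^ (r j) * G : Polynomial A) :
        PowerSeries A)) :
    ∑ j ∈ Finset.range ℓ, r j + (cD ℓ D + (cD ℓ D +
      (if ℓ ∣ D.natDegree + 1 then ∑ S ∈ facs u, ℓ ^ padicValNat ℓ S.1.natDegree else 0))) ≤
      (cPsi ℓ u D + cPhi ℓ f D) + (1 + (if ℓ ∣ D.natDegree + 1 then 1 else 0)) := by
  classical
  have hF : Fact ℓ.Prime := ⟨hℓ⟩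
  have he0 : e ≠ 0 := by
    rintro rfl
    exact he ⟨0, zero_pow hℓ.ne_zero⟩
  have hχ1 : χ ^ ℓ = 1 := by rw [← hχ]; exact pow_orderOf_eq_one χ
  obtain ⟨R, _, _, ρ, hq⟩ := exists_hom (A := A) hℓ (dvd_card hℓ hχ)
  choose! G hG using hr
  refine sum_bound ρ (q := Nat.card k) hq
    (fun j => LB ℓ χ u f (Polynomial.C (e ^ j) * D)) r G
    (fun j hj => hG j (Finset.mem_range.1 hj)) (sup_LB hℓ hχ he0 he u f D)
    (U := (∏ P ∈ facs D, (1 - X ^ P.1.natDegree)) *
      ((∏ P ∈ facs D, (1 - X ^ P.1.natDegree)) *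
      (if ℓ ∣ D.natDegree + 1 then ∏ S ∈ facs u, (1 - X ^ S.1.natDegree) else 1)))
    (V := (∏ P ∈ facs D, (Psi R u P.1.natDegree * Phi R f P)) *
      ((1 - X) * (if ℓ ∣ D.natDegree + 1 then 1 - X else 1))) ?_ ?_ ?_
  · refine (isMu_facs _).mul ((isMu_facs _).mul ?_)
    split_ifs
    · exact isMu_facs _
    · exact IsMu.one
  · refine (isMu_right u f D).mul ((IsMu.oneX (ℓ := ℓ)).mul ?_)
    split_ifs
    · exact IsMu.oneX (ℓ := ℓ)
    · exact IsMu.one
  · intro j _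
    have hc := pow_ne_zero j he0
    have hcop' : IsCoprime ((Polynomial.C (e ^ j) * D).comp f) u := by
      rw [Polynomial.mul_comp, Polynomial.C_comp]
      exact (isCoprime_mul_unit_left_left
        (Polynomial.isUnit_C.2 (isUnit_iff_ne_zero.2 hc)) _ _).2 hcop
    have h1 := identity_LB ρ hχ1 hq hu hf (mul_ne_zero (Polynomial.C_ne_zero.2 hc) hD) hcop'
    rwa [facs_C_mul hc hD, Polynomial.natDegree_C_mul hc] at h1

theorem cPsi_one (D : Polynomial k) : cPsi ℓ (1 : Polynomial k) D = 0 := by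
  unfold cPsi
  refine Finset.sum_eq_zero fun P _ => Finset.sum_eq_zero fun S hS => ?_
  rw [mem_facs one_ne_zero] at hS
  exact absurd (isUnit_of_dvd_one hS) S.2.2.not_isUnit

/-- **the sum of the orders, with branching at `x = ∞`** -/
theorem order_sum_A (hℓ : ℓ.Prime) {χ : MulChar k A} (hχ : orderOf χ = ℓ) {e : k}
    (he : ¬ ∃ v : k, v ^ ℓ = e) {f D : Polynomial k} (hf : 0 < f.natDegree)
    (hD : D ≠ 0) (r : ℕ → ℕ)
    (hr : ∀ j, j < ℓ → ∃ G : Polynomial A, LF χ 1 f (Polynomial.C (e ^ j) * D) =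
      (((1 - Polynomial.C (Nat.card k : A) * Polynomial.X) ^ (r j) * G : Polynomial A) :
        PowerSeries A)) :
    ∑ j ∈ Finset.range ℓ, r j + cD ℓ D ≤ cPhi ℓ f D := by
  classical
  have hF : Fact ℓ.Prime := ⟨hℓ⟩
  have he0 : e ≠ 0 := by
    rintro rfl
    exact he ⟨0, zero_pow hℓ.ne_zero⟩
  have hχ1 : χ ^ ℓ = 1 := by rw [← hχ]; exact pow_orderOf_eq_one χ
  obtain ⟨R, _, _, ρ, hq⟩ := exists_hom (A := A) hℓ (dvd_card hℓ hχ)
  choose! G hG using hr
  have h0 := sum_bound ρ (q := Nat.card k) hq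
    (fun j => LF χ 1 f (Polynomial.C (e ^ j) * D)) r G
    (fun j hj => hG j (Finset.mem_range.1 hj)) (sup_LF hℓ hχ he0 he 1 f D)
    (U := ∏ P ∈ facs D, (1 - X ^ P.1.natDegree))
    (V := ∏ P ∈ facs D, (Psi R 1 P.1.natDegree * Phi R f P)) (isMu_facs _) (isMu_right 1 f D)
    (fun j _ => by
      have hc := pow_ne_zero j he0
      have h1 := identity' ρ hχ1 hq one_ne_zero hf (mul_ne_zero (Polynomial.C_ne_zero.2 hc) hD)
        isCoprime_one_right
      rwa [facs_C_mul hc hD] at h1)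
  rw [cPsi_one, zero_add] at h0
  exact h0

/-- the order of one of them -/
theorem order_one_A (hℓ : ℓ.Prime) {χ : MulChar k A} (hχ : orderOf χ = ℓ)
    {f D : Polynomial k} (hf : 0 < f.natDegree) (hD : D ≠ 0) {m : ℕ} {G : Polynomial A}
    (hG : LF χ 1 f D = (((1 - Polynomial.C (Nat.card k : A) * Polynomial.X) ^ m * G :
      Polynomial A) : PowerSeries A)) : m + cD ℓ D ≤ cPhi ℓ f D := by
  classical
  have hF : Fact ℓ.Prime := ⟨hℓ⟩
  have hχ1 : χ ^ ℓ = 1 := by rw [← hχ]; exact pow_orderOf_eq_one χ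
  obtain ⟨R, _, _, ρ, hq⟩ := exists_hom (A := A) hℓ (dvd_card hℓ hχ)
  have h1 := identity' ρ hχ1 hq one_ne_zero hf hD isCoprime_one_right
  obtain ⟨U, hU, hU0, hUm⟩ := isMu_facs (R := R) (ℓ := ℓ) (facs D)
  obtain ⟨V, hV, hV0, hVm⟩ := isMu_right (R := R) (ℓ := ℓ) 1 f D
  rw [cPsi_one, zero_add] at hVm
  rw [hG, ← hU, ← hV, ← Polynomial.polynomial_map_coe, ← Polynomial.coe_mul] at h1
  have hpoly := Polynomial.coe_injective R h1
  rw [Polynomial.map_mul, Polynomial.map_pow, Polynomial.map_sub, Polynomial.map_one,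
    Polynomial.map_mul, Polynomial.map_C, Polynomial.map_X, map_natCast, hq, Polynomial.C_1,
    one_mul] at hpoly
  obtain ⟨hX, hXm⟩ := rm_zf (R := R) (ℓ := ℓ) one_pos
  rw [pow_one, padicValNat_one_right, pow_zero] at hXm
  rw [pow_one] at hX
  have hne : (1 - Polynomial.X) ^ m * G.map ρ ≠ 0 := by
    intro h
    rw [h, zero_mul] at hpoly
    exact hV0 hpoly.symm
  have hrm := congrArg (Polynomial.rootMultiplicity 1) hpoly
  rw [rm_mul 1 hne hU0, rm_mul 1 (left_ne_zero_of_mul hne) (right_ne_zero_of_mul hne),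
    rm_pow 1 hX, hXm, hUm, hVm] at hrm
  unfold cD cPhi
  unfold cPhi at hrm
  omega

end final

section special

variable {k : Type} [Field k] [Finite k] {ℓ : ℕ}

omit [Finite k] in
theorem lp_le (hℓ : ℓ.Prime) {m : ℕ} (hm : 0 < m) : ℓ ^ padicValNat ℓ m ≤ m :=
  Nat.le_of_dvd hm pow_padicValNat_dvd

theorem lp_mul (hℓ : ℓ.Prime) {m n : ℕ} (hm : 0 < m) (hn : 0 < n) :
    ℓ ^ padicValNat ℓ (m * n) = ℓ ^ padicValNat ℓ m * ℓ ^ padicValNat ℓ n := by
  have : Fact ℓ.Prime := ⟨hℓ⟩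
  rw [padicValNat.mul hm.ne' hn.ne', pow_add]

/-- the points over `P` -/
theorem sum_over_le (hℓ : ℓ.Prime) {f : Polynomial k} (hf : 0 < f.natDegree) (P : MI k) :
    ∑ S ∈ facs (P.1.comp f), ℓ ^ padicValNat ℓ S.1.natDegree ≤
      f.natDegree * ℓ ^ padicValNat ℓ P.1.natDegree := by
  have h1 := Pool.Agent.TH943.PT.sum_facs_le (comp_ne hf P)
  rw [Polynomial.natDegree_comp] at h1
  have h2 : ∀ S ∈ facs (P.1.comp f), P.1.natDegree * ℓ ^ padicValNat ℓ S.1.natDegree ≤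
      S.1.natDegree * ℓ ^ padicValNat ℓ P.1.natDegree := by
    intro S hS
    rw [mem_facs (comp_ne hf P)] at hS
    obtain ⟨Q, hQ, rfl⟩ := down_surj S hS
    rw [down_deg Q hQ, lp_mul hℓ (MI.deg_pos P) (MI.deg_pos Q)]
    have h3 := lp_le hℓ (MI.deg_pos Q)
    calc P.1.natDegree * (ℓ ^ padicValNat ℓ P.1.natDegree * ℓ ^ padicValNat ℓ Q.1.natDegree) =
        (P.1.natDegree * ℓ ^ padicValNat ℓ P.1.natDegree) * ℓ ^ padicValNat ℓ Q.1.natDegree := by
          ring
      _ ≤ (P.1.natDegree * ℓ ^ padicValNat ℓ P.1.natDegree) * Q.1.natDegree :=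
          Nat.mul_le_mul_left _ h3
      _ = _ := by ring
  have h4 := Finset.sum_le_sum h2
  rw [← Finset.mul_sum, ← Finset.sum_mul] at h4
  have h5 := MI.deg_pos P
  apply Nat.le_of_mul_le_mul_left _ h5
  calc _ ≤ _ := h4
    _ ≤ (P.1.natDegree * f.natDegree) * ℓ ^ padicValNat ℓ P.1.natDegree :=
        Nat.mul_le_mul_right _ h1
    _ = _ := by ring

/-- the points over an inert prime -/
theorem sum_over_inert (hℓ : ℓ.Prime) {f : Polynomial k} (hm : f.Monic) (hf : 0 < f.natDegree)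
    (hfℓ : ¬ ℓ ∣ f.natDegree) (P : MI k) (hP : Irreducible (P.1.comp f)) :
    ∑ S ∈ facs (P.1.comp f), ℓ ^ padicValNat ℓ S.1.natDegree =
      ℓ ^ padicValNat ℓ P.1.natDegree := by
  have hc : (P.1.comp f).Monic := P.2.1.comp hm hf.ne'
  have h1 : facs (P.1.comp f) = {⟨P.1.comp f, hc, hP⟩} := by
    ext S
    rw [mem_facs hP.ne_zero, Finset.mem_singleton]
    constructor
    · intro h
      exact Subtype.ext (Polynomial.eq_of_monic_of_associated S.2.1 hc
        (S.2.2.associated_of_dvd hP h))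
    · rintro rfl
      exact dvd_rfl
  rw [h1, Finset.sum_singleton]
  show ℓ ^ padicValNat ℓ (P.1.comp f).natDegree = _
  rw [Polynomial.natDegree_comp, lp_mul hℓ (MI.deg_pos P) hf, padicValNat.eq_zero_of_not_dvd hfℓ,
    pow_zero, mul_one]

/-- the points over a prime whose constant coefficient is not an `n`-th power -/
theorem sum_over_pow (hℓ : ℓ.Prime) {n : ℕ} (hn : n.Prime) (ho : Odd n) (hnℓ : ¬ ℓ ∣ n)
    (P : MI k) (hP : ¬ Pool.Agent.TH943.CY.PowCoeff n P.1) :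
    ∑ S ∈ facs (P.1.comp (Polynomial.X ^ n)), ℓ ^ padicValNat ℓ S.1.natDegree =
      ℓ ^ padicValNat ℓ P.1.natDegree := by
  classical
  by_cases h0 : P.1.coeff 0 = 0
  · have hX : Polynomial.X ∣ P.1 := Polynomial.X_dvd_iff.2 h0
    have hPX : P.1 = Polynomial.X := by
      have := (Polynomial.irreducible_X (R := k)).associated_of_dvd P.2.2 hX
      exact (Polynomial.eq_of_monic_of_associated Polynomial.monic_X P.2.1 this).symm
    rw [hPX, Polynomial.X_comp]
    have h1 : facs (Polynomial.X ^ n : Polynomial k) = {P} := by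
      ext S
      rw [mem_facs (pow_ne_zero _ Polynomial.X_ne_zero), Finset.mem_singleton]
      constructor
      · intro h
        have h2 := S.2.2.prime.dvd_of_dvd_pow h
        rw [← hPX] at h2
        exact eq_of_dvd_MI h2
      · rintro rfl
        rw [hPX]
        exact dvd_pow_self _ hn.ne_zero
    rw [h1, Finset.sum_singleton, hPX]
  · exact sum_over_inert hℓ (Polynomial.monic_X_pow n)
      (by rw [Polynomial.natDegree_X_pow]; exact hn.pos)
      (by rw [Polynomial.natDegree_X_pow]; exact hnℓ) P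
      (Pool.Agent.TH943.CY.irr_comp hn ho P h0 hP)

end special

end Pool.Agent.TH639.SC
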