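import Pool.Agent.TH639.SC.Loc
import Pool.Agent.TH943.LP.Ord

/-!
The identity modulo a prime over `ℓ` for the `χ`-part of the `L`-function of the Jacobian of
`y ^ ℓ = D(t) u(x) (f(x) - t)`.
-/

set_option autoImplicit false
set_option maxHeartbeats 1000000

open PowerSeries

namespace Pool.Agent.TH639.SC

open Pool.Agent.W313.Hyp Pool.Agent.W343.BSD Pool.Agent.TH943.HJ
open Pool.Agent.TH943.LP (map_ne deg_fac card_fac exists_under under_unique prod_facs_map facs_unit)

section

variable {k : Type} [Field k] {A : Type} [CommRing A]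

/-- The polynomial `D(t) u(x) (f(x) - t)` over the residue field at `P`. -/
noncomputable def tw (u f D : Polynomial k) (P : MI k) : Polynomial (RF P) :=
  Polynomial.C (AdjoinRoot.mk P.1 D) * (u.map (algebraMap k (RF P)) * fib f P)

/-- The part of the `L`-function of the closed points of the affine plane with `D(t) ≠ 0`. -/
noncomputable def LF (χ : MulChar k A) (u f D : Polynomial k) : PowerSeries A :=
  eulerProd (fun z : (Σ P : {P : MI k // ¬ P.1 ∣ D}, MI (RF P.1)) =>
      z.1.1.1.natDegree * z.2.1.natDegree)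
    (fun z => lf χ (tw u f D z.1.1) z.2.1 (z.1.1.1.natDegree * z.2.1.natDegree))

theorem tw_ne {u f D : Polynomial k} (hu : u ≠ 0) (hf : 0 < f.natDegree) {P : MI k}
    (hP : ¬ P.1 ∣ D) : tw u f D P ≠ 0 := by
  refine mul_ne_zero ?_ (mul_ne_zero (map_ne hu P) (fib_ne hf P))
  rw [Ne, Polynomial.C_eq_zero, AdjoinRoot.mk_eq_zero]
  exact hP

theorem dvd_tw {u f D : Polynomial k} {P : MI k} (hP : ¬ P.1 ∣ D) (Q : MI (RF P)) :
    Q.1 ∣ tw u f D P ↔ Q.1 ∣ u.map (algebraMap k (RF P)) ∨ Q.1 ∣ fib f P := by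
  unfold tw
  have h0 : AdjoinRoot.mk P.1 D ≠ 0 := by
    rw [Ne, AdjoinRoot.mk_eq_zero]
    exact hP
  have hu : IsUnit (Polynomial.C (AdjoinRoot.mk P.1 D)) :=
    Polynomial.isUnit_C.2 (isUnit_iff_ne_zero.2 h0)
  rw [hu.dvd_mul_left]
  exact Q.2.2.prime.dvd_mul

/-- the points on the lines `u(x) = 0` -/
theorem down_dvd_iff {u : Polynomial k} {P : MI k} (Q : MI (RF P)) :
    (down Q).1 ∣ u ↔ Q.1 ∣ u.map (algebraMap k (RF P)) := by
  have h1 : Q.1 ∣ u.map (algebraMap k (RF P)) ↔
      Polynomial.aeval (AdjoinRoot.root Q.1 : AdjoinRoot Q.1) u = 0 := by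
    rw [← Polynomial.aeval_map_algebraMap (RF P), AdjoinRoot.aeval_eq, AdjoinRoot.mk_eq_zero]
  rw [h1]
  constructor
  · rintro ⟨v, rfl⟩
    rw [map_mul]
    have : Polynomial.aeval (AdjoinRoot.root Q.1 : AdjoinRoot Q.1) (down Q).1 = 0 :=
      minpoly.aeval _ _
    rw [this, zero_mul]
  · intro h
    exact minpoly.dvd k _ h

variable [Finite k]

open Classical in
theorem facs_tw {u f D : Polynomial k} (hu : u ≠ 0) (hf : 0 < f.natDegree) {P : MI k}
    (hP : ¬ P.1 ∣ D) :
    facs (tw u f D P) = facs (u.map (algebraMap k (RF P))) ∪ facs (fib f P) := by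
  have := finRF P
  ext Q
  rw [mem_facs (tw_ne hu hf hP), dvd_tw hP, Finset.mem_union, mem_facs (fib_ne hf P),
    mem_facs (map_ne hu P)]

/-- the local comparison -/
theorem prod_down {M : Type} [CommMonoid M] {f : Polynomial k} (hf : 0 < f.natDegree) (P : MI k)
    (ψ : MI k → M) : ∏ Q ∈ facs (fib f P), ψ (down Q) = ∏ R ∈ facs (P.1.comp f), ψ R := by
  have := finRF P
  refine Finset.prod_bij (fun Q _ => down Q) ?_ ?_ ?_ ?_
  · intro Q hQ
    rw [mem_facs (fib_ne hf P)] at hQ
    rw [mem_facs (comp_ne hf P)]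
    exact down_dvd Q hQ
  · intro Q hQ Q' hQ' h
    rw [mem_facs (fib_ne hf P)] at hQ hQ'
    exact down_inj Q Q' hQ hQ' h
  · intro R hR
    rw [mem_facs (comp_ne hf P)] at hR
    obtain ⟨Q, hQ, h⟩ := down_surj R hR
    exact ⟨Q, (mem_facs (fib_ne hf P) Q).2 hQ, h⟩
  · intro Q _
    rfl

theorem LF_eq (χ : MulChar k A) (u f D : Polynomial k)
    [DecidablePred fun P : MI k => ¬ P.1 ∣ D] :
    LF χ u f D = eulerProd (fun P : MI k => P.1.natDegree)
      (fun P => if ¬ P.1 ∣ D then locL χ (tw u f D P) P.1.natDegree else 1) := by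
  have hfin : ∀ P : MI k, Finite (RF P) := finRF
  unfold LF
  rw [eulerProd_sigma (ι := {P : MI k // ¬ P.1 ∣ D}) (κ := fun P => MI (RF P.1))
    (d := fun P => P.1.1.natDegree) (e := fun P Q => Q.1.natDegree)
    (fun n => Set.Finite.of_finite_image (f := fun i : {P : MI k // ¬ P.1 ∣ D} => i.1)
      ((finite_deg_le (F := k) n).subset (by rintro _ ⟨i, hi, rfl⟩; exact hi))
      (Set.injOn_of_injective Subtype.val_injective))
    (fun P => MI.deg_pos P.1) (fun P n => finite_deg_le n) (fun P Q => MI.deg_pos Q) _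
    (fun p => lf_mod _ _ _ _)]
  exact eulerProd_subtype (fun P : MI k => ¬ P.1 ∣ D) (d := fun P => P.1.natDegree)
    (fun n => finite_deg_le (F := k) n) (f := fun P => locL χ (tw u f D P) P.1.natDegree)
    (fun P _ => locL_mod_one χ (tw u f D P) (MI.deg_pos P))

variable {R : Type} [Field R]

omit [Finite k] in
theorem card_RFR (hq : ((Nat.card k : ℕ) : R) = 1) (P : MI k) :
    ((Nat.card (RF P) : ℕ) : R) = 1 := by
  have := fd1 P
  rw [Module.natCard_eq_pow_finrank (K := k) (V := RF P)]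
  push_cast
  rw [hq, one_pow]

variable (R) in
/-- the contribution of the roots of `u` over the residue field of degree `n` -/
noncomputable def Psi (u : Polynomial k) (n : ℕ) : PowerSeries R :=
  ∏ S ∈ facs u, (1 - X ^ Nat.lcm n S.1.natDegree) ^ (Nat.gcd n S.1.natDegree)

variable (R) in
/-- the contribution of the points over `P` of the curve `f(x) = t` -/
noncomputable def Phi (f : Polynomial k) (P : MI k) : PowerSeries R :=
  ∏ S ∈ facs (P.1.comp f), (1 - X ^ S.1.natDegree)

open Classical in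
variable (R) in
/-- the contribution of the common points -/
noncomputable def Xi (u f : Polynomial k) (P : MI k) : PowerSeries R :=
  ∏ S ∈ facs (P.1.comp f), if S.1 ∣ u then 1 - X ^ S.1.natDegree else 1

theorem eulerProd_const (hq : ((Nat.card k : ℕ) : R) = 1) (S : MI k) :
    eulerProd (fun P : MI k => P.1.natDegree) (fun P =>
      (1 - PowerSeries.X ^ Nat.lcm P.1.natDegree S.1.natDegree : PowerSeries R) ^
        (Nat.gcd P.1.natDegree S.1.natDegree)) = 1 - PowerSeries.X ^ S.1.natDegree := by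
  have hfin1 : Finite (RF S) := finRF S
  have h1 : (fun P : MI k =>
      (1 - PowerSeries.X ^ Nat.lcm P.1.natDegree S.1.natDegree : PowerSeries R) ^
        (Nat.gcd P.1.natDegree S.1.natDegree)) =
      fun P : MI k => ∏ Q ∈ facs (P.1.map (algebraMap k (RF S))),
        (1 - PowerSeries.X ^ (S.1.natDegree * Q.1.natDegree) : PowerSeries R) := by
    funext P
    rw [Nat.gcd_comm, ← card_fac S P, ← Finset.prod_const]
    refine Finset.prod_congr rfl fun Q hQ => ?_
    rw [deg_fac Q ((mem_facs (map_ne P.2.1.ne_zero S) Q).1 hQ), Nat.lcm_comm]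
  rw [h1, eulerProd_fiber (d' := fun Q : MI (RF S) => S.1.natDegree * Q.1.natDegree)
    (fun n => finite_deg_le (F := k) n) (finite_d (MI.deg_pos S))
    (f' := fun Q => 1 - PowerSeries.X ^ (S.1.natDegree * Q.1.natDegree))
    (fun Q => one_sub_mod le_rfl) (fun P => facs (P.1.map (algebraMap k (RF S))))
    (fun Q => by
      obtain ⟨P, hP⟩ := exists_under Q
      exact ⟨P, (mem_facs (map_ne P.2.1.ne_zero S) Q).2 hP⟩)
    (fun P P' Q h h' => under_unique Q P P' ((mem_facs (map_ne P.2.1.ne_zero S) Q).1 h)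
      ((mem_facs (map_ne P'.2.1.ne_zero S) Q).1 h'))
    (fun P Q hQ => by
      rw [deg_fac Q ((mem_facs (map_ne P.2.1.ne_zero S) Q).1 hQ)]
      exact Nat.le_of_dvd (Nat.lcm_pos (MI.deg_pos S) (MI.deg_pos P)) (Nat.dvd_lcm_right _ _))]
  exact zeta_line (card_RFR hq S) (MI.deg_pos S)

omit [Finite k] in
theorem Psi_mod (u : Polynomial k) {n : ℕ} (hn : 0 < n) :
    (X : PowerSeries R) ^ n ∣ Psi R u n - 1 := by
  have h := prod_congr_mod (facs u)
    (fun S => ((1 - X ^ Nat.lcm n S.1.natDegree) ^ (Nat.gcd n S.1.natDegree) :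
      PowerSeries R)) (fun _ => 1) n (fun S _ => pow_one_mod (one_sub_mod
        (Nat.le_of_dvd (Nat.lcm_pos hn (MI.deg_pos S)) (Nat.dvd_lcm_left _ _))) _)
  rwa [Finset.prod_const_one] at h

theorem eulerProd_Psi (hq : ((Nat.card k : ℕ) : R) = 1) (u : Polynomial k) :
    eulerProd (fun P : MI k => P.1.natDegree) (fun P => Psi R u P.1.natDegree) =
      ∏ S ∈ facs u, (1 - X ^ S.1.natDegree) := by
  unfold Psi
  rw [eulerProd_prod (fun n => finite_deg_le (F := k) n) (facs u) _ (fun S P => ?_)]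
  · exact Finset.prod_congr rfl fun S _ => eulerProd_const hq S
  · exact pow_one_mod (one_sub_mod
        (Nat.le_of_dvd (Nat.lcm_pos (MI.deg_pos P) (MI.deg_pos S)) (Nat.dvd_lcm_left _ _))) _

theorem deg_over {f : Polynomial k} (hf : 0 < f.natDegree) (P S : MI k)
    (hS : S ∈ facs (P.1.comp f)) : P.1.natDegree ≤ S.1.natDegree := by
  rw [mem_facs (comp_ne hf P)] at hS
  obtain ⟨Q, hQ, rfl⟩ := down_surj S hS
  rw [down_deg Q hQ]
  exact Nat.le_mul_of_pos_right _ (MI.deg_pos Q)

theorem eulerProd_over {f : Polynomial k} (hf : 0 < f.natDegree) (g : MI k → PowerSeries R)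
    (hg : ∀ S : MI k, (X : PowerSeries R) ^ S.1.natDegree ∣ g S - 1) :
    eulerProd (fun P : MI k => P.1.natDegree) (fun P => ∏ S ∈ facs (P.1.comp f), g S) =
      eulerProd (fun P : MI k => P.1.natDegree) g := by
  have hfd := fun n => finite_deg_le (F := k) n
  exact eulerProd_fiber hfd hfd hg (fun P => facs (P.1.comp f))
      (fun S => by
        obtain ⟨P, hP⟩ := exists_over (f := f) S
        exact ⟨P, (mem_facs (comp_ne hf P) S).2 hP⟩)
      (fun P P' S hS hS' => over_unique S P P' ((mem_facs (comp_ne hf P) S).1 hS)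
        ((mem_facs (comp_ne hf P') S).1 hS')) (fun P S hS => deg_over hf P S hS)

theorem zeta_one (hq : ((Nat.card k : ℕ) : R) = 1) :
    eulerProd (fun P : MI k => P.1.natDegree)
      (fun P => (1 - X ^ P.1.natDegree : PowerSeries R)) = 1 - X := by
  have h := zeta_line (F := k) (R := R) hq one_pos
  simpa only [one_mul, pow_one] using h

theorem eulerProd_Phi (hq : ((Nat.card k : ℕ) : R) = 1) {f : Polynomial k}
    (hf : 0 < f.natDegree) :
    eulerProd (fun P : MI k => P.1.natDegree) (Phi R f) = 1 - X := by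
  have h := eulerProd_over (R := R) hf (fun S => 1 - X ^ S.1.natDegree)
    (fun S => one_sub_mod le_rfl)
  rw [zeta_one hq] at h
  exact h

omit [Finite k] in
open Classical in
theorem ite_mod (u : Polynomial k) (S : MI k) : (X : PowerSeries R) ^ S.1.natDegree ∣
    (if S.1 ∣ u then 1 - X ^ S.1.natDegree else 1) - 1 := by
  split_ifs
  · exact one_sub_mod le_rfl
  · rw [sub_self]; exact dvd_zero _

theorem eulerProd_Xi {u f : Polynomial k} (hu : u ≠ 0) (hf : 0 < f.natDegree) :
    eulerProd (fun P : MI k => P.1.natDegree) (Xi R u f) =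
      ∏ S ∈ facs u, (1 - X ^ S.1.natDegree) := by
  classical
  have hfd := fun n => finite_deg_le (F := k) n
  have h := eulerProd_over (R := R) hf
    (fun S => if S.1 ∣ u then 1 - X ^ S.1.natDegree else 1) (ite_mod u)
  have h2 : eulerProd (fun P : MI k => P.1.natDegree)
      (fun S : MI k => if S.1 ∣ u then (1 - X ^ S.1.natDegree : PowerSeries R) else 1) =
      ∏ S ∈ facs u, (1 - X ^ S.1.natDegree) := by
    rw [eulerProd_of_finset hfd (ite_mod u) (facs u) (fun S hS => by
      rw [mem_facs hu] at hS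
      exact if_neg hS)]
    refine Finset.prod_congr rfl fun S hS => ?_
    rw [mem_facs hu] at hS
    exact if_pos hS
  rw [← h2, ← h]
  congr 1

theorem Phi_mod {f : Polynomial k} (hf : 0 < f.natDegree) (P : MI k) :
    (X : PowerSeries R) ^ P.1.natDegree ∣ Phi R f P - 1 := by
  have h := prod_congr_mod (facs (P.1.comp f))
    (fun S => (1 - X ^ S.1.natDegree : PowerSeries R)) (fun _ => 1) P.1.natDegree
    (fun S hS => one_sub_mod (deg_over hf P S hS))
  rwa [Finset.prod_const_one] at h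

theorem Xi_mod {u f : Polynomial k} (hf : 0 < f.natDegree) (P : MI k) :
    (X : PowerSeries R) ^ P.1.natDegree ∣ Xi R u f P - 1 := by
  classical
  have h := prod_congr_mod (facs (P.1.comp f))
    (fun S => (if S.1 ∣ u then 1 - X ^ S.1.natDegree else 1 : PowerSeries R)) (fun _ => 1)
    P.1.natDegree (fun S hS => (pow_dvd_pow _ (deg_over hf P S hS)).trans (ite_mod u S))
  rw [Finset.prod_const_one] at h
  have h7 : Xi R u f P = ∏ S ∈ facs (P.1.comp f),
      (if S.1 ∣ u then 1 - X ^ S.1.natDegree else 1 : PowerSeries R) := by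
    unfold Xi
    congr 1
  rw [h7]
  exact h

/-- inclusion and exclusion over a closed point -/
theorem Psi_mul_Phi {u f D : Polynomial k} (hu : u ≠ 0) (hf : 0 < f.natDegree) {P : MI k}
    (hP : ¬ P.1 ∣ D) :
    Psi R u P.1.natDegree * Phi R f P =
      (∏ Q ∈ facs (tw u f D P), (1 - X ^ (P.1.natDegree * Q.1.natDegree))) * Xi R u f P := by
  classical
  have := finRF P
  have h3 : Psi R u P.1.natDegree = ∏ Q ∈ facs (u.map (algebraMap k (RF P))),
      (1 - X ^ (P.1.natDegree * Q.1.natDegree) : PowerSeries R) :=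
    (prod_facs_map hu P (fun n => (1 - X ^ n : PowerSeries R))).symm
  have h4 : Phi R f P = ∏ Q ∈ facs (fib f P),
      (1 - X ^ (P.1.natDegree * Q.1.natDegree) : PowerSeries R) :=
    (prod_local f P (fib_ne hf P) (comp_ne hf P) (fun n => (1 - X ^ n : PowerSeries R))).symm
  have h5 : Xi R u f P = ∏ Q ∈ facs (u.map (algebraMap k (RF P))) ∩ facs (fib f P),
      (1 - X ^ (P.1.natDegree * Q.1.natDegree) : PowerSeries R) := by
    have h6 := prod_down (M := PowerSeries R) hf P
      (fun S => if S.1 ∣ u then 1 - X ^ S.1.natDegree else 1)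
    have h7 : Xi R u f P = ∏ S ∈ facs (P.1.comp f),
        (if S.1 ∣ u then 1 - X ^ S.1.natDegree else 1 : PowerSeries R) := by
      unfold Xi
      congr 1
    rw [h7, ← h6]
    have h8 : facs (u.map (algebraMap k (RF P))) ∩ facs (fib f P) =
        (facs (fib f P)).filter (fun Q => (down Q).1 ∣ u) := by
      ext Q
      rw [Finset.mem_inter, Finset.mem_filter, mem_facs (map_ne hu P), down_dvd_iff, and_comm]
    rw [h8, Finset.prod_filter]
    refine Finset.prod_congr rfl fun Q hQ => ?_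
    rw [mem_facs (fib_ne hf P)] at hQ
    split_ifs
    · rw [down_deg Q hQ]
    · rfl
  rw [h3, h4, h5, facs_tw hu hf hP]
  exact (Finset.prod_union_inter).symm

open Classical in
/-- **the identity modulo a prime over `ℓ`** -/
theorem identity {ℓ : ℕ} [hp : Fact ℓ.Prime] [CharP R ℓ] (ρ : A →+* R) {χ : MulChar k A}
    (hχ : χ ^ ℓ = 1) (hq : ((Nat.card k : ℕ) : R) = 1) {u f D : Polynomial k}
    (hu : u ≠ 0) (hf : 0 < f.natDegree) (hD : D ≠ 0) :
    PowerSeries.map ρ (LF χ u f D) *
        ∏ P ∈ facs D, ((1 - X ^ P.1.natDegree) * Xi R u f P) =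
      ∏ P ∈ facs D, (Psi R u P.1.natDegree * Phi R f P) := by
  have hfin : ∀ P : MI k, Finite (RF P) := finRF
  have hfd := fun n => finite_deg_le (F := k) n
  set W : MI k → PowerSeries R :=
    fun P => PowerSeries.map ρ (if ¬ P.1 ∣ D then locL χ (tw u f D P) P.1.natDegree else 1) with hW
  have hloc : ∀ P : MI k, (X : PowerSeries A) ^ P.1.natDegree ∣
      (if ¬ P.1 ∣ D then locL χ (tw u f D P) P.1.natDegree else 1) - 1 := by
    intro P
    split_ifs with hv
    · rw [sub_self]; exact dvd_zero _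
    · exact locL_mod_one χ (tw u f D P) (MI.deg_pos P)
  have hW1 : ∀ P : MI k, (X : PowerSeries R) ^ P.1.natDegree ∣ W P - 1 := by
    intro P
    have h3 := map_dvd (PowerSeries.map ρ) (hloc P)
    rwa [map_sub, map_one, map_pow, PowerSeries.map_X] at h3
  have hWS : ∀ P ∈ facs D, W P = 1 := by
    intro P hP
    rw [mem_facs hD] at hP
    show PowerSeries.map ρ (if ¬ P.1 ∣ D then locL χ (tw u f D P) P.1.natDegree else 1) = 1
    rw [if_neg (not_not.2 hP), map_one]
  have hZ1 : ∀ P : MI k, (X : PowerSeries R) ^ P.1.natDegree ∣ (1 - X ^ P.1.natDegree) - 1 :=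
    fun P => one_sub_mod le_rfl
  have hΨ1 : ∀ P : MI k, (X : PowerSeries R) ^ P.1.natDegree ∣ Psi R u P.1.natDegree - 1 :=
    fun P => Psi_mod u (MI.deg_pos P)
  have hgood : ∀ P, P ∉ facs D → Psi R u P.1.natDegree * Phi R f P * W P =
      (1 - X ^ P.1.natDegree) * Xi R u f P := by
    intro P hP
    rw [mem_facs hD] at hP
    have := fd1 P
    have h1 := locL_red ρ hχ (card_RFR hq P) (tw_ne hu hf hP) (MI.deg_pos P)
    have h2 : W P = PowerSeries.map ρ (locL χ (tw u f D P) P.1.natDegree) := by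
      show PowerSeries.map ρ
        (if ¬ P.1 ∣ D then locL χ (tw u f D P) P.1.natDegree else 1) = _
      rw [if_pos hP]
    rw [← h2] at h1
    rw [Psi_mul_Phi hu hf hP]
    linear_combination (Xi R u f P) * h1
  have hLS : PowerSeries.map ρ (LF χ u f D) = eulerProd (fun P : MI k => P.1.natDegree) W := by
    rw [LF_eq χ u f D, map_eulerProd hfd]
  have key := fin_factor' (F := fun P => Psi R u P.1.natDegree * Phi R f P * W P)
    (W := fun P => (1 - X ^ P.1.natDegree) * Xi R u f P) hfd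
    (fun P => one_mod_mul (one_mod_mul (hΨ1 P) (Phi_mod hf P)) (hW1 P))
    (fun P => one_mod_mul (hZ1 P) (Xi_mod hf P)) (facs D) hgood
  rw [eulerProd_mul hfd (fun P => one_mod_mul (hΨ1 P) (Phi_mod hf P)) hW1,
    eulerProd_mul hfd hΨ1 (Phi_mod hf), eulerProd_mul hfd hZ1 (Xi_mod hf), eulerProd_Psi hq u,
    eulerProd_Phi hq hf, eulerProd_Xi hu hf, zeta_one hq, ← hLS] at key
  have hne : (∏ S ∈ facs u, (1 - X ^ S.1.natDegree : PowerSeries R)) * (1 - X) ≠ 0 := by
    refine mul_ne_zero (Finset.prod_ne_zero_iff.2 fun S _ => one_sub_ne (MI.deg_pos S)) ?_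
    have := one_sub_ne (R := R) one_pos
    rwa [pow_one] at this
  have hTW : ∏ P ∈ facs D, (Psi R u P.1.natDegree * Phi R f P * W P) =
      ∏ P ∈ facs D, (Psi R u P.1.natDegree * Phi R f P) :=
    Finset.prod_congr rfl fun P hP => by rw [hWS P hP, mul_one]
  rw [hTW] at key
  apply mul_left_cancel₀ hne
  linear_combination key

end

end Pool.Agent.TH639.SC
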