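import Pool.Agent.TH943.HJ.Bij
import Pool.Agent.TH943.LP.Fac
import Pool.Agent.TH943.CY.Tw
import Pool.Agent.W309.T3.Eul
import Mathlib.NumberTheory.MulChar.Basic

/-!
The Euler factors of the `χ`-part of the cohomology of the curves `y ^ ℓ = g(x)` over finite fields,
for a character `χ` of order `ℓ` with values in a domain, modulo a prime over `ℓ`.
-/

set_option autoImplicit false
set_option maxHeartbeats 1000000

open PowerSeries

namespace Pool.Agent.TH639.SC

open Pool.Agent.W313.Hyp Pool.Agent.W343.BSD Pool.Agent.TH943.HJ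

section basic

theorem one_sub_mod {R : Type*} [CommRing R] {n m : ℕ} (h : m ≤ n) :
    (X : PowerSeries R) ^ m ∣ (1 - X ^ n) - 1 := by
  rw [sub_right_comm, sub_self, zero_sub, dvd_neg]
  exact pow_dvd_pow _ h

theorem pow_one_mod {R : Type*} [CommRing R] {a : PowerSeries R} {n : ℕ}
    (h : (X : PowerSeries R) ^ n ∣ a - 1) (m : ℕ) : (X : PowerSeries R) ^ n ∣ a ^ m - 1 :=
  h.trans (sub_one_dvd_pow_sub_one a m)

theorem one_sub_ne {R : Type*} [CommRing R] [Nontrivial R] {n : ℕ} (hn : 0 < n) :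
    (1 - X ^ n : PowerSeries R) ≠ 0 := by
  intro h
  have h1 := congrArg (constantCoeff (R := R)) h
  rw [map_sub, map_one, map_pow, constantCoeff_X, zero_pow hn.ne', sub_zero, map_zero] at h1
  exact one_ne_zero h1

end basic

section loc

variable {k : Type} [Field k] {A : Type} [CommRing A]

/-- the Euler factor at the closed point `Q` of degree `n`, for the equation `y ^ ℓ = g(x)` -/
noncomputable def lf (χ : MulChar k A) {F : Type} [Field F] [Algebra k F] (g Q : Polynomial F)
    (n : ℕ) : PowerSeries A :=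
  1 - C (χ (Algebra.norm k (AdjoinRoot.mk Q g))) * X ^ n

theorem lf_mod (χ : MulChar k A) {F : Type} [Field F] [Algebra k F] (g Q : Polynomial F) (n : ℕ) :
    (X : PowerSeries A) ^ n ∣ lf χ g Q n - 1 := by
  unfold lf
  rw [sub_right_comm, sub_self, zero_sub, dvd_neg]
  exact dvd_mul_left _ _

variable {F : Type} [Field F] [Algebra k F]

theorem finQ [Module.Finite k F] (Q : MI F) : Module.Finite k (AdjoinRoot Q.1) := by
  have h2 : Module.Finite F (AdjoinRoot Q.1) := Q.2.1.finite_adjoinRoot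
  exact Module.Finite.trans F (AdjoinRoot Q.1)

theorem norm_eq_zero_iff [Module.Finite k F] (Q : MI F) (g : Polynomial F) :
    Algebra.norm k (AdjoinRoot.mk Q.1 g) = 0 ↔ Q.1 ∣ g := by
  have h1 := finQ (k := k) Q
  rw [Algebra.norm_eq_zero_iff, AdjoinRoot.mk_eq_zero]

theorem lf_of_dvd [Module.Finite k F] (χ : MulChar k A) {g : Polynomial F} {Q : MI F} {n : ℕ}
    (h : Q.1 ∣ g) : lf χ g Q.1 n = 1 := by
  unfold lf
  rw [(norm_eq_zero_iff (k := k) Q g).2 h, MulChar.map_zero, map_zero, zero_mul, sub_zero]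

variable {R : Type} [Field R]

/-- the values of the character are one modulo a prime over `ℓ` -/
theorem red_char {ℓ : ℕ} [hp : Fact ℓ.Prime] [CharP R ℓ] (ρ : A →+* R) {χ : MulChar k A}
    (hχ : χ ^ ℓ = 1) {u : k} (hu : u ≠ 0) : ρ (χ u) = 1 := by
  have h1 : (χ u) ^ ℓ = 1 := by
    rw [← MulChar.pow_apply' χ hp.out.ne_zero, hχ, MulChar.one_apply (isUnit_iff_ne_zero.2 hu)]
  have h2 : (ρ (χ u) - 1) ^ ℓ = 0 := by
    rw [sub_pow_char, ← map_pow, h1, map_one, one_pow, sub_self]
  exact sub_eq_zero.1 (eq_zero_of_pow_eq_zero h2)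

theorem red_lf {ℓ : ℕ} [hp : Fact ℓ.Prime] [CharP R ℓ] (ρ : A →+* R) {χ : MulChar k A}
    (hχ : χ ^ ℓ = 1) [Module.Finite k F] {g : Polynomial F} {Q : MI F} {n : ℕ} (h : ¬ Q.1 ∣ g) :
    PowerSeries.map ρ (lf χ g Q.1 n) = 1 - X ^ n := by
  unfold lf
  rw [map_sub, map_one, map_mul, PowerSeries.map_C, map_pow, PowerSeries.map_X,
    red_char ρ hχ (fun h0 => h ((norm_eq_zero_iff (k := k) Q g).1 h0)), PowerSeries.C.map_one,
    one_mul]

/-- the product over the closed points of the line -/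
noncomputable def locL (χ : MulChar k A) (g : Polynomial F) (d : ℕ) : PowerSeries A :=
  eulerProd (fun P : MI F => d * P.1.natDegree) (fun P => lf χ g P.1 (d * P.1.natDegree))

theorem locL_mod_one [Finite F] (χ : MulChar k A) (g : Polynomial F) {d : ℕ} (hd : 0 < d) :
    (X : PowerSeries A) ^ d ∣ locL χ g d - 1 :=
  euler_one_mod (finite_d hd) (fun P => lf_mod χ g P.1 _) d fun P =>
    (pow_dvd_pow _ (Nat.le_mul_of_pos_right _ (MI.deg_pos P))).trans (lf_mod χ g P.1 _)

omit [Algebra k F] in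
/-- the product of all `1 - X ^ (d deg P)` modulo `ℓ` -/
theorem zeta_line [Finite F] (hF : ((Nat.card F : ℕ) : R) = 1) {d : ℕ} (hd : 0 < d) :
    eulerProd (fun P : MI F => d * P.1.natDegree)
      (fun P => (1 - X ^ (d * P.1.natDegree) : PowerSeries R)) = 1 - X ^ d := by
  have h6 := euler_irr (F := F) R
  have h7 := expand_eulerProd (R := R) (d := fun P : MI F => P.1.natDegree)
    (fun n => finite_deg_le (F := F) n) hd.ne' (f := fun P => 1 - X ^ P.1.natDegree)
    (fun P => one_sub_mod le_rfl)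
  rw [h6, hF] at h7
  have h8 : (fun P : MI F => (1 - X ^ (d * P.1.natDegree) : PowerSeries R)) =
      fun P : MI F => expand d hd.ne' (1 - X ^ P.1.natDegree) := by
    funext P
    rw [map_sub, map_one, map_pow, expand_X, ← pow_mul]
  rw [h8, ← h7, PowerSeries.C.map_one, one_mul, map_sub, map_one, expand_X]

/-- the local identity -/
theorem locL_red {ℓ : ℕ} [hp : Fact ℓ.Prime] [CharP R ℓ] (ρ : A →+* R) {χ : MulChar k A}
    (hχ : χ ^ ℓ = 1) [Module.Finite k F] [Finite F] (hF : ((Nat.card F : ℕ) : R) = 1)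
    {g : Polynomial F} (h0 : g ≠ 0) {d : ℕ} (hd : 0 < d) :
    PowerSeries.map ρ (locL χ g d) * ∏ P ∈ facs g, (1 - X ^ (d * P.1.natDegree)) = 1 - X ^ d := by
  have h1 : ∀ P : MI F, (X : PowerSeries R) ^ (d * P.1.natDegree) ∣
      (1 - X ^ (d * P.1.natDegree)) - 1 := fun P => one_sub_mod le_rfl
  have h2 : ∀ P : MI F, (X : PowerSeries R) ^ (d * P.1.natDegree) ∣
      PowerSeries.map ρ (lf χ g P.1 (d * P.1.natDegree)) - 1 := fun P => by
    have h3 := map_dvd (PowerSeries.map ρ) (lf_mod χ g P.1 (d * P.1.natDegree))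
    rwa [map_sub, map_one, map_pow, PowerSeries.map_X] at h3
  have key := fin_factor' (finite_d hd)
    (F := fun P : MI F => (1 - X ^ (d * P.1.natDegree) : PowerSeries R))
    h1 h2 (facs g) (fun P hP => by
      rw [red_lf ρ hχ (fun hPh => hP ((mem_facs h0 P).2 hPh))])
  have h4 : ∏ P ∈ facs g, PowerSeries.map ρ (lf χ g P.1 (d * P.1.natDegree)) = 1 :=
    Finset.prod_eq_one fun P hP => by
      rw [lf_of_dvd χ ((mem_facs h0 P).1 hP), map_one]
  rw [h4, mul_one, zeta_line hF hd] at key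
  have h5 : PowerSeries.map ρ (locL χ g d) = eulerProd (fun P : MI F => d * P.1.natDegree)
      (fun P => PowerSeries.map ρ (lf χ g P.1 (d * P.1.natDegree))) := by
    unfold locL
    exact map_eulerProd (finite_d hd) _
  rw [h5, ← key]

end loc

end Pool.Agent.TH639.SC
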