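import Pool.Agent.TH639.SC.Glob
import Mathlib.RingTheory.Polynomial.Cyclotomic.Basic
import Mathlib.RingTheory.PowerSeries.NoZeroDivisors

/-!
The product of the `χ`-parts of the twists by the powers of a constant is a function of `T ^ ℓ`.
-/

set_option autoImplicit false
set_option maxHeartbeats 1000000

open PowerSeries

namespace Pool.Agent.TH639.SC

open Pool.Agent.W313.Hyp Pool.Agent.W343.BSD Pool.Agent.TH943.HJ

section sup

variable {A : Type} [CommRing A]

/-- only exponents divisible by `ℓ` occur -/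
def Sup (ℓ : ℕ) (g : PowerSeries A) : Prop := ∀ n, ¬ ℓ ∣ n → coeff n g = 0

variable {ℓ : ℕ}

theorem Sup.one : Sup ℓ (1 : PowerSeries A) := by
  intro n hn
  rw [coeff_one, if_neg]
  rintro rfl
  exact hn (dvd_zero ℓ)

theorem Sup.mul {g h : PowerSeries A} (hg : Sup ℓ g) (hh : Sup ℓ h) : Sup ℓ (g * h) := by
  intro n hn
  rw [coeff_mul]
  refine Finset.sum_eq_zero fun p hp => ?_
  replace hp := Finset.HasAntidiagonal.mem_antidiagonal.1 hp
  by_cases h1 : ℓ ∣ p.1
  · have h2 : ¬ ℓ ∣ p.2 := fun h2 => hn (by rw [← hp]; exact dvd_add h1 h2)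
    rw [hh _ h2, mul_zero]
  · rw [hg _ h1, zero_mul]

theorem Sup.sub {g h : PowerSeries A} (hg : Sup ℓ g) (hh : Sup ℓ h) : Sup ℓ (g - h) := by
  intro n hn
  rw [map_sub, hg n hn, hh n hn, sub_zero]

theorem Sup.pow {g : PowerSeries A} (hg : Sup ℓ g) (m : ℕ) : Sup ℓ (g ^ m) := by
  induction m with
  | zero => rw [pow_zero]; exact Sup.one
  | succ m ih => rw [pow_succ]; exact ih.mul hg

theorem Sup.monomial (c : A) {m : ℕ} (hm : ℓ ∣ m) : Sup ℓ (C c * X ^ m) := by
  intro n hn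
  rw [coeff_C_mul, coeff_X_pow, if_neg, mul_zero]
  rintro rfl
  exact hn hm

theorem Sup.prod {ι : Type*} (s : Finset ι) {f : ι → PowerSeries A} (h : ∀ i ∈ s, Sup ℓ (f i)) :
    Sup ℓ (∏ i ∈ s, f i) := by
  classical
  induction s using Finset.induction_on with
  | empty => exact Sup.one
  | insert i s hi ih =>
    rw [Finset.prod_insert hi]
    exact (h i (Finset.mem_insert_self i s)).mul
      (ih fun j hj => h j (Finset.mem_insert_of_mem hj))

theorem Sup.eulerProd {ι : Type*} {d : ι → ℕ} (hfin : ∀ n, {i | d i ≤ n}.Finite)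
    {f : ι → PowerSeries A} (h : ∀ i, Sup ℓ (f i)) : Sup ℓ (eulerProd d f) := by
  intro n hn
  rw [coeff_eulerProd hfin]
  exact Sup.prod _ (fun i _ => h i) n hn

theorem eulerProd_comp {ι κ : Type} (e : ι ≃ κ) (d : κ → ℕ) (f : κ → PowerSeries A) :
    Pool.Agent.W343.BSD.eulerProd d f =
      Pool.Agent.W343.BSD.eulerProd (fun i => d (e i)) (fun i => f (e i)) := by
  unfold Pool.Agent.W343.BSD.eulerProd
  ext n
  rw [PowerSeries.coeff_mk, PowerSeries.coeff_mk]
  congr 1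
  exact (finprod_comp_equiv e (f := fun z : κ => ∏ᶠ (_ : d z ≤ n), f z)).symm

end sup

section roots

theorem prod_one_sub {B : Type*} [CommRing B] [IsDomain B] {ω : B} {ℓ : ℕ}
    (h : IsPrimitiveRoot ω ℓ) (hℓ : 0 < ℓ) (y : B) :
    ∏ j ∈ Finset.range ℓ, (1 - ω ^ j * y) = 1 - y ^ ℓ := by
  classical
  have h1 := h.pow_sub_pow_eq_prod_sub_mul 1 y hℓ
  rw [one_pow] at h1
  rw [h1]
  have h2 : Polynomial.nthRootsFinset ℓ (1 : B) = (Finset.range ℓ).image (fun j => ω ^ j) := by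
    ext z
    rw [Polynomial.mem_nthRootsFinset hℓ, Finset.mem_image]
    constructor
    · intro hz
      have : NeZero ℓ := ⟨hℓ.ne'⟩
      obtain ⟨i, hi, hz⟩ := h.eq_pow_of_pow_eq_one hz
      exact ⟨i, Finset.mem_range.2 hi, hz⟩
    · rintro ⟨i, _, rfl⟩
      rw [← pow_mul, mul_comm, pow_mul, h.pow_eq_one, one_pow]
  rw [h2, Finset.prod_image]
  intro i hi j hj hij
  rw [Finset.mem_coe, Finset.mem_range] at hi hj
  exact h.pow_inj hi hj hij

end roots

section chars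

variable {k : Type} [Field k] [Finite k] {A : Type} [CommRing A]

/-- the elements where a character of order `ℓ` is one -/
theorem char_ne_one {ℓ : ℕ} {χ : MulChar k A} (hχ : orderOf χ = ℓ) {e : k} (he0 : e ≠ 0)
    (he : ¬ ∃ v : k, v ^ ℓ = e) : χ e ≠ 1 := by
  intro h1
  apply he
  obtain ⟨g, hg⟩ := IsCyclic.exists_generator (α := kˣ)
  obtain ⟨i, hi⟩ := mem_powers_iff_mem_zpowers.2 (hg (Units.mk0 e he0))
  have hi' : g ^ i = Units.mk0 e he0 := hi
  have h2 : (χ (g : k)) ^ i = 1 := by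
    rw [← map_pow, ← Units.val_pow_eq_pow_val, hi', Units.val_mk0, h1]
  have h3 : χ ^ i = 1 := by
    rcases Nat.eq_zero_or_pos i with h0 | h0
    · rw [h0, pow_zero]
    · apply MulChar.ext
      intro a
      obtain ⟨m, hm⟩ := mem_powers_iff_mem_zpowers.2 (hg a)
      have hm' : g ^ m = a := hm
      rw [MulChar.pow_apply' χ h0.ne', MulChar.one_apply a.isUnit, ← hm', Units.val_pow_eq_pow_val,
        map_pow, ← pow_mul, mul_comm, pow_mul, h2, one_pow]
  have h4 := orderOf_dvd_of_pow_eq_one h3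
  rw [hχ] at h4
  obtain ⟨j, hj⟩ := h4
  refine ⟨((g ^ j : kˣ) : k), ?_⟩
  rw [← Units.val_pow_eq_pow_val, ← pow_mul, mul_comm j ℓ, ← hj, hi', Units.val_mk0]

theorem char_prim [IsDomain A] {ℓ : ℕ} (hℓ : ℓ.Prime) {χ : MulChar k A} (hχ : orderOf χ = ℓ)
    {e : k} (he0 : e ≠ 0) (he : ¬ ∃ v : k, v ^ ℓ = e) : IsPrimitiveRoot (χ e) ℓ := by
  have hF : Fact ℓ.Prime := ⟨hℓ⟩
  have h1 : (χ e) ^ ℓ = 1 := by
    have h2 : χ ^ ℓ = 1 := by rw [← hχ]; exact pow_orderOf_eq_one χ
    rw [← MulChar.pow_apply' χ hℓ.ne_zero, h2, MulChar.one_apply (isUnit_iff_ne_zero.2 he0)]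
  have h3 := IsPrimitiveRoot.orderOf (χ e)
  rwa [orderOf_eq_prime h1 (char_ne_one hχ he0 he)] at h3

/-- the product of the Euler factors of the twists -/
theorem prod_lf [IsDomain A] {ℓ : ℕ} (hℓ : ℓ.Prime) {χ : MulChar k A} (hχ : orderOf χ = ℓ)
    {e : k} (he0 : e ≠ 0) (he : ¬ ∃ v : k, v ^ ℓ = e) {E : Type} [Field E] [Algebra k E]
    [Module.Finite k E] (u : E) {N : ℕ} (hN : Module.finrank k E = N) :
    Sup ℓ (∏ j ∈ Finset.range ℓ,
      (1 - C (χ (Algebra.norm k (algebraMap k E (e ^ j) * u))) * X ^ N : PowerSeries A)) := by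
  have hprim := char_prim hℓ hχ he0 he
  have hval : ∀ j, χ (Algebra.norm k (algebraMap k E (e ^ j) * u)) =
      ((χ e) ^ N) ^ j * χ (Algebra.norm k u) := by
    intro j
    rw [map_mul, Algebra.norm_algebraMap, hN, map_mul, ← pow_mul, map_pow, ← pow_mul, mul_comm j N]
  by_cases hd : ℓ ∣ N
  · have h1 : (χ e) ^ N = 1 := by
      obtain ⟨m, rfl⟩ := hd
      rw [pow_mul, hprim.pow_eq_one, one_pow]
    refine Sup.prod _ fun j _ => ?_
    rw [hval j, h1, one_pow, one_mul]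
    exact Sup.one.sub (Sup.monomial _ hd)
  · have h1 : IsPrimitiveRoot ((χ e) ^ N) ℓ :=
      hprim.pow_of_coprime N ((Nat.coprime_comm.1 ((Nat.Prime.coprime_iff_not_dvd hℓ).2 hd)))
    have h2 : IsPrimitiveRoot (C ((χ e) ^ N) : PowerSeries A) ℓ :=
      h1.map_of_injective (f := (PowerSeries.C : A →+* PowerSeries A)) PowerSeries.C_injective
    have h3 := prod_one_sub h2 hℓ.pos (C (χ (Algebra.norm k u)) * X ^ N : PowerSeries A)
    have h4 : ∏ j ∈ Finset.range ℓ,
        (1 - C (χ (Algebra.norm k (algebraMap k E (e ^ j) * u))) * X ^ N : PowerSeries A) =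
        ∏ j ∈ Finset.range ℓ,
          (1 - (C ((χ e) ^ N)) ^ j * (C (χ (Algebra.norm k u)) * X ^ N) : PowerSeries A) := by
      refine Finset.prod_congr rfl fun j _ => ?_
      rw [hval j, map_mul, map_pow, mul_assoc]
    rw [h4, h3, mul_pow, ← map_pow, ← pow_mul]
    exact Sup.one.sub (Sup.monomial _ (dvd_mul_left _ _))

end chars

section main

variable {k : Type} [Field k] {A : Type} [CommRing A]

/-- multiplication of the equation by a scalar -/
theorem lf_scalar (χ : MulChar k A) {F : Type} [Field F] [Algebra k F] (g : Polynomial F)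
    (Q : MI F) (n : ℕ) (c : k) : lf χ (Polynomial.C (algebraMap k F c) * g) Q.1 n =
      1 - C (χ (Algebra.norm k (algebraMap k (AdjoinRoot Q.1) c * AdjoinRoot.mk Q.1 g))) * X ^ n := by
  unfold lf
  rw [map_mul, AdjoinRoot.mk_C]
  rfl

theorem hiff {e : k} (he : e ≠ 0) (D : Polynomial k) (P : MI k) :
    ¬ P.1 ∣ D ↔ ¬ P.1 ∣ Polynomial.C e * D := by
  rw [(Polynomial.isUnit_C.2 (isUnit_iff_ne_zero.2 he)).dvd_mul_left]

/-- the index sets of the twists -/
def planeE {e : k} (he : e ≠ 0) (D : Polynomial k) :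
    (Σ P : {P : MI k // ¬ P.1 ∣ D}, MI (RF P.1)) ≃
      (Σ P : {P : MI k // ¬ P.1 ∣ Polynomial.C e * D}, MI (RF P.1)) where
  toFun z := ⟨⟨z.1.1, (hiff he D _).1 z.1.2⟩, z.2⟩
  invFun z := ⟨⟨z.1.1, (hiff he D _).2 z.1.2⟩, z.2⟩
  left_inv _ := rfl
  right_inv _ := rfl

theorem tw_scalar (e : k) (u f D : Polynomial k) (P : MI k) :
    tw u f (Polynomial.C e * D) P = Polynomial.C (algebraMap k (RF P) e) * tw u f D P := by
  unfold tw
  rw [map_mul, AdjoinRoot.mk_C, Polynomial.C_mul, mul_assoc]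
  rfl

/-- the plane part of a twist over the index set of the plane part -/
theorem LF_twist (χ : MulChar k A) {e : k} (he : e ≠ 0) (u f D : Polynomial k) :
    LF χ u f (Polynomial.C e * D) =
      eulerProd (fun z : (Σ P : {P : MI k // ¬ P.1 ∣ D}, MI (RF P.1)) =>
        z.1.1.1.natDegree * z.2.1.natDegree)
      (fun z => lf χ (Polynomial.C (algebraMap k (RF z.1.1) e) * tw u f D z.1.1) z.2.1
        (z.1.1.1.natDegree * z.2.1.natDegree)) := by
  unfold LF
  rw [eulerProd_comp (planeE he D)]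
  have key : (fun z : (Σ P : {P : MI k // ¬ P.1 ∣ D}, MI (RF P.1)) =>
      lf χ (tw u f (Polynomial.C e * D) (planeE he D z).1.1) (planeE he D z).2.1
        ((planeE he D z).1.1.1.natDegree * (planeE he D z).2.1.natDegree)) =
      (fun z => lf χ (Polynomial.C (algebraMap k (RF z.1.1) e) * tw u f D z.1.1) z.2.1
        (z.1.1.1.natDegree * z.2.1.natDegree)) := by
    funext z
    show lf χ (tw u f (Polynomial.C e * D) z.1.1) z.2.1 (z.1.1.1.natDegree * z.2.1.natDegree) = _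
    rw [tw_scalar]
  rw [key]
  rfl

variable [Finite k] [IsDomain A] {ℓ : ℕ}

/-- the twists of the product over the closed points of the line -/
theorem sup_locL (hℓ : ℓ.Prime) {χ : MulChar k A} (hχ : orderOf χ = ℓ) {e : k} (he0 : e ≠ 0)
    (he : ¬ ∃ v : k, v ^ ℓ = e) (g : Polynomial k) :
    Sup ℓ (∏ j ∈ Finset.range ℓ, locL χ (Polynomial.C (e ^ j) * g) 1) := by
  unfold locL
  rw [← eulerProd_prod (finite_d one_pos) _ _ (fun j P => lf_mod _ _ _ _)]
  refine Sup.eulerProd (finite_d one_pos) fun P => ?_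
  have := fd1 P
  have h1 := prod_lf hℓ hχ he0 he (E := RF P) (AdjoinRoot.mk P.1 g) (N := 1 * P.1.natDegree)
    (by rw [finrank_RF, one_mul])
  refine (congrArg (Sup ℓ) (Finset.prod_congr rfl fun j _ => ?_)).mp h1
  exact (lf_scalar χ (F := k) g P (1 * P.1.natDegree) (e ^ j)).symm

theorem sup_LF (hℓ : ℓ.Prime) {χ : MulChar k A} (hχ : orderOf χ = ℓ) {e : k} (he0 : e ≠ 0)
    (he : ¬ ∃ v : k, v ^ ℓ = e) (u f D : Polynomial k) :
    Sup ℓ (∏ j ∈ Finset.range ℓ, LF χ u f (Polynomial.C (e ^ j) * D)) := by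
  rw [Finset.prod_congr rfl fun j _ => LF_twist χ (pow_ne_zero j he0) u f D,
    ← eulerProd_prod (Pool.Agent.TH943.CY.plane_finite D) _ _ (fun j z => lf_mod _ _ _ _)]
  refine Sup.eulerProd (Pool.Agent.TH943.CY.plane_finite D) fun z => ?_
  obtain ⟨⟨P, hP⟩, Q⟩ := z
  have := fd1 P
  have h9 := fd2 Q
  have h1 := prod_lf hℓ hχ he0 he (E := AdjoinRoot Q.1) (AdjoinRoot.mk Q.1 (tw u f D P))
    (finrank_two Q)
  refine (congrArg (Sup ℓ) (Finset.prod_congr rfl fun j _ => ?_)).mp h1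
  show _ = lf χ (Polynomial.C (algebraMap k (RF P) (e ^ j)) * tw u f D P) Q.1
    (P.1.natDegree * Q.1.natDegree)
  exact (lf_scalar χ (F := RF P) (tw u f D P) Q (P.1.natDegree * Q.1.natDegree) (e ^ j)).symm

end main

end Pool.Agent.TH639.SC
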